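import Pool.Agent.U687.Q2.Arith
import Pool.Agent.Q283.TW.Bord

/-!
# Lower bounds of the first laws
-/

set_option autoImplicit false
set_option linter.unusedSectionVars false

open scoped Classical

namespace Pool.Agent.U687.Q2

open Finset Matrix Filter Topology

variable {n : ℕ}

theorem half_pow (n : ℕ) : (1 / 2 : ℝ) ^ n = 1 / 2 ^ n := by
  rw [one_div, inv_pow, one_div]

theorem mu_ge (A : Matrix (Fin n) (Fin n) (ZMod 2)) : (1 / 2 : ℝ) ^ n ≤ mu A 0 := by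
  rw [mu_share, half_pow]
  obtain ⟨v, hv⟩ := Q283.TW.exists_diag A
  have h1 : Nonempty {y : Fin n → ZMod 2 // (A + diagonal y).rank + 0 = n} := by
    refine ⟨v, ?_⟩
    have h2 := (cor_zero_iff (A + diagonal v)).2 hv
    have h3 := cor_rank (A + diagonal v)
    omega
  have h4 : 1 ≤ Nat.card {y : Fin n → ZMod 2 // (A + diagonal y).rank + 0 = n} := Nat.card_pos
  gcongr
  exact_mod_cast h4

theorem nu_ge {A : Matrix (Fin n) (Fin n) (ZMod 2)} (hA : A.IsSymm) :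
    (1 / 2 : ℝ) ^ (n + 1) ≤ nu A 0 := by
  rw [nu_share, half_pow]
  obtain ⟨v, hv⟩ := Q283.TW.exists_diag A
  have hM := diag_symm hA v
  have hu : IsUnit (A + diagonal v).det := Ne.isUnit hv
  obtain ⟨u, hu'⟩ : ∃ u, (A + diagonal v) *ᵥ u = v :=
    ⟨(A + diagonal v)⁻¹ *ᵥ v, by
      rw [Matrix.mulVec_mulVec, Matrix.mul_nonsing_inv _ hu, Matrix.one_mulVec]⟩
  have hc : ((A + diagonal v) *ᵥ u) ⬝ᵥ u + 1 ≠ ((A + diagonal v) *ᵥ u) ⬝ᵥ u := by
    have : ∀ x : ZMod 2, x + 1 ≠ x := by decide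
    exact this _
  have h5 := cor_in hM u hc
  have h6 := (cor_zero_iff (A + diagonal v)).2 hv
  rw [h6, hu'] at h5
  have h1 : Nonempty {x : (Fin n → ZMod 2) × ZMod 2 //
      (bord (A + diagonal x.1) x.2 x.1).rank + 0 = n + 1} := by
    refine ⟨(v, v ⬝ᵥ u + 1), ?_⟩
    show (bord (A + diagonal v) (v ⬝ᵥ u + 1) v).rank + 0 = n + 1
    have h3 := cor_rank (bord (A + diagonal v) (v ⬝ᵥ u + 1) v)
    omega
  have h4 : 1 ≤ Nat.card {x : (Fin n → ZMod 2) × ZMod 2 //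
      (bord (A + diagonal x.1) x.2 x.1).rank + 0 = n + 1} := Nat.card_pos
  gcongr
  exact_mod_cast h4

/-- the distance of the probability of zero for the iterated means, and a lower bound -/
theorem chain_facts (τ : ℕ → Fin 3) (k : ℕ) {A : Matrix (Fin n) (Fin n) (ZMod 2)} (hA : A.IsSymm) :
    (1 / 2 : ℝ) ^ (n + 1 + k) ≤ chain (fun i => wt (τ i)) k (mu A) (nu A) 0 ∧
    |chain (fun i => wt (τ i)) k (mu A) (nu A) 0 - lim2| ≤
      (∏ i ∈ Finset.range n, ((2 : ℝ) ^ (i + 1) - 1)) *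
        ∏ i ∈ Finset.range k, (1 - wt (τ (i + 1)) / 2) := by
  have hw : ∀ i, 0 ≤ wt (τ i) ∧ wt (τ i) ≤ 1 := by
    intro i
    unfold wt
    split_ifs <;> norm_num
  refine ⟨?_, chain_zero_near _ hw k A⟩
  rw [pow_add]
  refine chain_ge _ hw k (by positivity) (mu_nonneg A) (nu_nonneg A) ?_ (nu_ge hA)
  refine le_trans ?_ (mu_ge A)
  rw [pow_succ]
  have : (0 : ℝ) < (1 / 2) ^ n := by positivity
  linarith

/-- the products tend to zero if infinitely many of the weights are positive -/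
theorem prod_tendsto (τ : ℕ → Fin 3) (h : ∃ᶠ k in atTop, τ k ≠ 0) :
    Tendsto (fun k => ∏ i ∈ Finset.range k, (1 - wt (τ (i + 1)) / 2)) atTop (𝓝 0) := by
  have hf : ∀ i, 0 ≤ 1 - wt (τ (i + 1)) / 2 ∧ 1 - wt (τ (i + 1)) / 2 ≤ 1 ∧
      (τ (i + 1) ≠ 0 → 1 - wt (τ (i + 1)) / 2 ≤ 3 / 4) := by
    intro i
    unfold wt
    split_ifs with h1 h2
    · norm_num
      exact h1
    · norm_num
    · norm_num
  have hanti : Antitone fun k => ∏ i ∈ Finset.range k, (1 - wt (τ (i + 1)) / 2) := by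
    apply antitone_nat_of_succ_le
    intro k
    rw [Finset.prod_range_succ]
    have h1 : 0 ≤ ∏ i ∈ Finset.range k, (1 - wt (τ (i + 1)) / 2) :=
      Finset.prod_nonneg fun i _ => (hf i).1
    exact mul_le_of_le_one_right h1 (hf k).2.1
  have hex : ∀ m : ℕ, ∃ k, ∏ i ∈ Finset.range k, (1 - wt (τ (i + 1)) / 2) ≤ (3 / 4 : ℝ) ^ m := by
    intro m
    induction m with
    | zero => exact ⟨0, by simp⟩
    | succ m ih =>
      obtain ⟨k, hk⟩ := ih
      obtain ⟨j, hj, hτ⟩ := (Filter.frequently_atTop.1 h) (k + 1)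
      obtain ⟨i, rfl⟩ : ∃ i, j = i + 1 := ⟨j - 1, by omega⟩
      refine ⟨i + 1, ?_⟩
      rw [Finset.prod_range_succ, pow_succ]
      have h1 : ∏ i ∈ Finset.range i, (1 - wt (τ (i + 1)) / 2) ≤ (3 / 4 : ℝ) ^ m :=
        (hanti (by omega : k ≤ i)).trans hk
      have h2 : 0 ≤ ∏ i ∈ Finset.range i, (1 - wt (τ (i + 1)) / 2) :=
        Finset.prod_nonneg fun i _ => (hf i).1
      exact mul_le_mul h1 ((hf i).2.2 hτ) (hf i).1 (by positivity)
  rw [Metric.tendsto_atTop]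
  intro ε hε
  obtain ⟨m, hm⟩ := exists_pow_lt_of_lt_one hε (by norm_num : (3 / 4 : ℝ) < 1)
  obtain ⟨k, hk⟩ := hex m
  refine ⟨k, fun j hj => ?_⟩
  rw [Real.dist_eq, sub_zero, abs_of_nonneg (Finset.prod_nonneg fun i _ => (hf i).1)]
  exact (hanti hj).trans_lt (lt_of_le_of_lt hk hm)

end Pool.Agent.U687.Q2
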