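import Pool.Agent.U687.Q2.Conv

/-!
# The first laws, and a lower bound
-/

set_option autoImplicit false
set_option linter.unusedSectionVars false

open scoped Classical

namespace Pool.Agent.U687.Q2

open Finset Matrix Filter Topology

variable {n : ℕ}

theorem pt_nonneg (r s : ℕ) : 0 ≤ pt r s := by
  unfold pt
  split_ifs <;> norm_num

theorem mu_nonneg (A : Matrix (Fin n) (Fin n) (ZMod 2)) (r : ℕ) : 0 ≤ mu A r :=
  div_nonneg (Finset.sum_nonneg fun _ _ => pt_nonneg _ _) (by positivity)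

theorem nu_nonneg (A : Matrix (Fin n) (Fin n) (ZMod 2)) (r : ℕ) : 0 ≤ nu A r :=
  div_nonneg (Finset.sum_nonneg fun _ _ => Finset.sum_nonneg fun _ _ => pt_nonneg _ _)
    (by positivity)

theorem pt_sum {m s : ℕ} (h : s < m) : ∑ r ∈ Finset.range m, pt r s = 1 := by
  unfold pt
  rw [Finset.sum_ite_eq, if_pos (Finset.mem_range.2 h)]

theorem cor_le (M : Matrix (Fin n) (Fin n) (ZMod 2)) : cor M ≤ n := by
  unfold cor
  omega

theorem mu_sum (A : Matrix (Fin n) (Fin n) (ZMod 2)) {m : ℕ} (hm : n < m) :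
    ∑ r ∈ Finset.range m, mu A r = 1 := by
  unfold mu ph
  rw [← Finset.sum_div, Finset.sum_comm]
  rw [Finset.sum_congr rfl fun y _ => pt_sum (lt_of_le_of_lt (cor_le (A + diagonal y)) hm)]
  rw [sum_const_vec, mul_one]
  exact div_self (by positivity)

theorem nu_sum (A : Matrix (Fin n) (Fin n) (ZMod 2)) {m : ℕ} (hm : n + 1 < m) :
    ∑ r ∈ Finset.range m, nu A r = 1 := by
  unfold nu ps
  rw [← Finset.sum_div, Finset.sum_comm]
  have h1 : ∀ v : Fin n → ZMod 2, ∑ r ∈ Finset.range m, ∑ d : ZMod 2,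
      pt r (cor (bord (A + diagonal v) d v)) = 2 := by
    intro v
    rw [Finset.sum_comm]
    rw [Finset.sum_congr rfl fun d _ => pt_sum (lt_of_le_of_lt (cor_le (bord (A + diagonal v) d v)) hm)]
    rw [sum_const_two, mul_one]
  rw [Finset.sum_congr rfl fun v _ => h1 v, sum_const_vec, pow_succ]
  exact div_self (by positivity)

theorem mu_near (A : Matrix (Fin n) (Fin n) (ZMod 2)) : Near (mu A) (1 / ee n) :=
  near_init (mu_nonneg A) fun _ hm => mu_sum A (by omega)

theorem nu_near (A : Matrix (Fin n) (Fin n) (ZMod 2)) : Near (nu A) (1 / ee n) :=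
  near_init (nu_nonneg A) fun _ hm => nu_sum A hm

theorem mu_share (A : Matrix (Fin n) (Fin n) (ZMod 2)) (r : ℕ) :
    mu A r = (Nat.card {y : Fin n → ZMod 2 // (A + diagonal y).rank + r = n} : ℝ) / 2 ^ n := by
  unfold mu ph
  congr 1
  rw [Nat.card_eq_fintype_card, Fintype.card_subtype, ← Finset.sum_boole]
  refine Finset.sum_congr rfl fun y _ => ?_
  have h := cor_rank (A + diagonal y)
  unfold pt
  by_cases h1 : cor (A + diagonal y) = r
  · rw [if_pos h1, if_pos (by omega)]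
  · rw [if_neg h1, if_neg (by omega)]

theorem nu_share (A : Matrix (Fin n) (Fin n) (ZMod 2)) (r : ℕ) :
    nu A r = (Nat.card {x : (Fin n → ZMod 2) × ZMod 2 //
      (bord (A + diagonal x.1) x.2 x.1).rank + r = n + 1} : ℝ) / 2 ^ (n + 1) := by
  unfold nu ps
  congr 1
  rw [Nat.card_eq_fintype_card, Fintype.card_subtype, ← Finset.sum_boole, Fintype.sum_prod_type]
  refine Finset.sum_congr rfl fun v _ => Finset.sum_congr rfl fun d _ => ?_
  have h := cor_rank (bord (A + diagonal v) d v)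
  unfold pt
  by_cases h1 : cor (bord (A + diagonal v) d v) = r
  · rw [if_pos h1, if_pos (by show (bord (A + diagonal v) d v).rank + r = n + 1; omega)]
  · rw [if_neg h1, if_neg (by show ¬ (bord (A + diagonal v) d v).rank + r = n + 1; omega)]

theorem TT_nonneg {μ : ℕ → ℝ} (h : ∀ r, 0 ≤ μ r) (r : ℕ) : 0 ≤ TT μ r := by
  unfold TT
  have h1 : (1 / 2 : ℝ) ^ (r + 1) ≤ 1 := pow_le_one₀ (by norm_num) (by norm_num)
  have h2 : (0 : ℝ) ≤ (1 / 2) ^ (r + 1) := by positivity
  have h3 := mul_nonneg (by linarith : (0 : ℝ) ≤ 1 - (1 / 2) ^ (r + 1)) (h (r + 1))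
  have h4 := mul_nonneg h2 (h r)
  have h5 : (0 : ℝ) ≤ (if r = 0 then 0 else (1 / 2) ^ r * μ (r - 1)) := by
    split_ifs
    · exact le_rfl
    · exact mul_nonneg (by positivity) (h _)
  linarith

theorem TT_zero_ge {μ : ℕ → ℝ} (h : ∀ r, 0 ≤ μ r) : 1 / 2 * μ 0 ≤ TT μ 0 := by
  unfold TT
  rw [if_pos rfl]
  have := h 1
  norm_num
  linarith

/-- **a lower bound** -/
theorem chain_ge (w : ℕ → ℝ) (hw : ∀ i, 0 ≤ w i ∧ w i ≤ 1) (k : ℕ) : ∀ {μ ν : ℕ → ℝ} {m : ℝ},
    0 ≤ m → (∀ r, 0 ≤ μ r) → (∀ r, 0 ≤ ν r) → m ≤ μ 0 → m ≤ ν 0 →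
      m * (1 / 2) ^ k ≤ chain w k μ ν 0 := by
  induction k with
  | zero =>
    intro μ ν m hm _ _ h h'
    rw [pow_zero, mul_one]
    show m ≤ (1 - w 0) * μ 0 + w 0 * ν 0
    have h1 := mul_le_mul_of_nonneg_left h (by linarith [(hw 0).2] : (0 : ℝ) ≤ 1 - w 0)
    have h2 := mul_le_mul_of_nonneg_left h' (hw 0).1
    linarith
  | succ k ih =>
    intro μ ν m hm hμ hν h h'
    have e1 := TT_zero_ge hμ
    have e2 := TT_zero_ge hν
    have h1 := ih (m := m / 2) (by linarith) hμ (TT_nonneg hμ) (by linarith) (by linarith)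
    have h2 := ih (m := m / 2) (by linarith) (TT_nonneg hμ) (TT_nonneg hν) (by linarith)
      (by linarith)
    show _ ≤ (1 - w (k + 1)) * chain w k μ (TT μ) 0 + w (k + 1) * chain w k (TT μ) (TT ν) 0
    have h3 := mul_le_mul_of_nonneg_left h1 (by linarith [(hw (k + 1)).2] : (0 : ℝ) ≤ 1 - w (k + 1))
    have h4 := mul_le_mul_of_nonneg_left h2 (hw (k + 1)).1
    rw [pow_succ]
    have e3 : m * ((1 / 2 : ℝ) ^ k * (1 / 2)) = (1 - w (k + 1)) * (m / 2 * (1 / 2) ^ k) +
        w (k + 1) * (m / 2 * (1 / 2) ^ k) := by ring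
    rw [e3]
    linarith

/-- **the distance of the probability of zero** -/
theorem chain_zero_near (w : ℕ → ℝ) (hw : ∀ i, 0 ≤ w i ∧ w i ≤ 1) (k : ℕ)
    (A : Matrix (Fin n) (Fin n) (ZMod 2)) :
    |chain w k (mu A) (nu A) 0 - lim2| ≤
      (∏ i ∈ Finset.range n, ((2 : ℝ) ^ (i + 1) - 1)) *
        ∏ i ∈ Finset.range k, (1 - w (i + 1) / 2) := by
  have h := chain_near w hw k (mu_near A) (nu_near A) 1
  rw [Finset.sum_range_one, Finset.sum_range_one, prob_zero] at h
  have e1 : ww 1 = 1 := ee_zero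
  have e2 : 1 / ee n = ∏ i ∈ Finset.range n, ((2 : ℝ) ^ (i + 1) - 1) := by
    unfold ee
    rw [one_div_one_div]
  rw [e1, mul_one, e2] at h
  exact h

/-- the corank is zero if and only if the determinant is not -/
theorem cor_zero_iff (M : Matrix (Fin n) (Fin n) (ZMod 2)) : cor M = 0 ↔ M.det ≠ 0 := by
  have h1 : kc M = 1 ↔ cor M = 0 := by
    rw [kc_eq]
    constructor
    · intro h
      by_contra hne
      have : 2 ≤ 2 ^ cor M := by
        calc 2 = 2 ^ 1 := rfl
          _ ≤ 2 ^ cor M := Nat.pow_le_pow_right (by norm_num) (by omega)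
      omega
    · intro h
      rw [h, pow_zero]
  rw [← h1, ← not_iff_not, not_not, ← Matrix.exists_mulVec_eq_zero_iff]
  constructor
  · intro h
    by_contra hne
    apply h
    push Not at hne
    unfold kc
    have : Unique {v : Fin n → ZMod 2 // M *ᵥ v = 0} :=
      { default := ⟨0, Matrix.mulVec_zero M⟩
        uniq := fun v => Subtype.ext (by
          by_contra h0
          exact hne v.1 h0 v.2) }
    exact Nat.card_unique
  · rintro ⟨v, hv, hv0⟩ h
    unfold kc at h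
    have hs := (Nat.card_eq_one_iff_unique.1 h).1
    have := hs.elim (⟨v, hv0⟩ : {v : Fin n → ZMod 2 // M *ᵥ v = 0}) ⟨0, Matrix.mulVec_zero M⟩
    exact hv (congrArg Subtype.val this)

end Pool.Agent.U687.Q2
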