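import Pool.Agent.U687.Q2.Sum
import Pool.Agent.U687.JT.Quad
import Pool.Agent.U687.JT.Cnt

/-!
# The matrix of the twist, and the means over the primes
-/

set_option autoImplicit false
set_option linter.unusedSectionVars false
set_option linter.style.haveILetI false

open scoped Classical

namespace Pool.Agent.U687.Q2

open Finset Matrix Filter Topology
open Pool.Agent.Results.MP_4a9ea6_nt.TwoPartTwistsX49 (Adm mat split nonsq nonfourth)
open Pool.Agent.U687.JT (mem_split pf_mul adm_mul ne_of_not_dvd diag_sum nonsq_symm split_inert bad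
  bad_spec bad_pos quad_inert quad_split ratio_hom card_zmod2_fun dens_gen ratio_lim exists_dat K0 K1
  Θ0 Θ1 surjΘ0 surjΘ1 nr2 n47 QDat)

variable {n : ℕ}

/-- `P` enumerates the prime factors of `D` which split in `ℚ(√-7)` -/
def En (D n : ℕ) (P : Fin n → ℕ) : Prop := Function.Injective P ∧ split D = Finset.univ.image P

theorem En.mem {D : ℕ} {P : Fin n → ℕ} (h : En D n P) (i : Fin n) : P i ∈ split D := by
  rw [h.2]
  exact Finset.mem_image_of_mem P (Finset.mem_univ i)

theorem En.pf {D : ℕ} {P : Fin n → ℕ} (h : En D n P) (i : Fin n) : P i ∈ D.primeFactors :=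
  (mem_split.1 (h.mem i)).1

/-- the enumeration as an equivalence -/
noncomputable def En.eq {D : ℕ} {P : Fin n → ℕ} (h : En D n P) : Fin n ≃ split D :=
  Equiv.ofBijective (fun i => ⟨P i, h.mem i⟩) (by
    constructor
    · intro i j hij
      exact h.1 (congrArg (fun x : split D => (x : ℕ)) hij)
    · rintro ⟨x, hx⟩
      have h1 := hx
      rw [h.2] at h1
      obtain ⟨i, -, hi⟩ := Finset.mem_image.1 h1
      exact ⟨i, Subtype.ext hi⟩)

theorem En.card {D : ℕ} {P : Fin n → ℕ} (h : En D n P) : (split D).card = n := by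
  rw [h.2, Finset.card_image_of_injective _ h.1, Finset.card_univ, Fintype.card_fin]

theorem exists_en (D : ℕ) : ∃ P : Fin (split D).card → ℕ, En D (split D).card P := by
  refine ⟨fun i => ((split D).equivFin.symm i : ℕ), ?_, ?_⟩
  · intro i j hij
    exact (split D).equivFin.symm.injective (Subtype.ext hij)
  · ext x
    rw [Finset.mem_image]
    constructor
    · intro hx
      exact ⟨(split D).equivFin ⟨x, hx⟩, Finset.mem_univ _, by
        show (((split D).equivFin.symm ((split D).equivFin ⟨x, hx⟩) : split D) : ℕ) = x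
        rw [Equiv.symm_apply_apply]⟩
    · rintro ⟨i, -, rfl⟩
      exact ((split D).equivFin.symm i).2

/-- the matrix of `D` -/
noncomputable def MM (D : ℕ) {n : ℕ} (P : Fin n → ℕ) : Matrix (Fin n) (Fin n) (ZMod 2) :=
  Matrix.of fun i j =>
    if i = j then nonfourth (P i) + ∑ l ∈ D.primeFactors.erase (P i), nonsq (P i) l
    else nonsq (P i) (P j)

theorem det_MM {D : ℕ} {P : Fin n → ℕ} (h : En D n P) : (mat D).det = (MM D P).det := by
  rw [← Matrix.det_submatrix_equiv_self h.eq (mat D)]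
  congr 1
  ext i j
  rw [Matrix.submatrix_apply]
  unfold mat MM
  rw [Matrix.of_apply, Matrix.of_apply]
  have hv : ∀ i, ((h.eq i : split D) : ℕ) = P i := fun i => rfl
  by_cases hij : i = j
  · subst hij
    rw [if_pos rfl, if_pos rfl, hv]
  · rw [if_neg hij, if_neg (fun h' => hij (h.eq.injective h')), hv, hv]

theorem MM_symm {D : ℕ} {P : Fin n → ℕ} (hD : Adm D) (h : En D n P) : (MM D P).IsSymm := by
  ext i j
  rw [Matrix.transpose_apply]
  show (if j = i then _ else nonsq (P j) (P i)) = if i = j then _ else nonsq (P i) (P j)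
  by_cases hij : i = j
  · subst hij
    rfl
  · rw [if_neg hij, if_neg (Ne.symm hij)]
    exact nonsq_symm (Nat.prime_of_mem_primeFactors (h.pf j))
      (Nat.prime_of_mem_primeFactors (h.pf i)) (hD.2 _ (h.pf j)) (hD.2 _ (h.pf i))

theorem en_inert {D l : ℕ} {P : Fin n → ℕ} (hD : D ≠ 0) (h : En D n P) (hl : l.Prime)
    (h7 : ¬ IsSquare (-7 : ZMod l)) : En (D * l) n P := by
  refine ⟨h.1, ?_⟩
  rw [← h.2]
  ext x
  exact (split_inert hD hl h7 x).symm

theorem MM_inert {D l : ℕ} {P : Fin n → ℕ} (hD : D ≠ 0) (h : En D n P) (hl : l.Prime)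
    (hlD : ¬ l ∣ D) : MM (D * l) P = MM D P + diagonal fun i => nonsq (P i) l := by
  ext i j
  rw [Matrix.add_apply, Matrix.diagonal_apply]
  unfold MM
  rw [Matrix.of_apply, Matrix.of_apply]
  by_cases hij : i = j
  · subst hij
    rw [if_pos rfl, if_pos rfl, if_pos rfl, diag_sum hD hl hlD (h.pf i), add_assoc]
  · rw [if_neg hij, if_neg hij, if_neg hij, add_zero]

theorem en_split {D l : ℕ} {P : Fin n → ℕ} (hD : D ≠ 0) (h : En D n P) (hl : l.Prime)
    (hlD : ¬ l ∣ D) (h7 : IsSquare (-7 : ZMod l)) :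
    En (D * l) (n + 1) (Fin.cons l P : Fin (n + 1) → ℕ) := by
  refine ⟨?_, ?_⟩
  · rw [Fin.cons_injective_iff]
    refine ⟨?_, h.1⟩
    rintro ⟨i, hi⟩
    exact ne_of_not_dvd hlD (h.pf i) hi
  · ext x
    rw [mem_split, pf_mul hD hl, Finset.mem_insert, Finset.mem_image]
    constructor
    · rintro ⟨rfl | h1, h2⟩
      · exact ⟨0, Finset.mem_univ _, rfl⟩
      · have h3 : x ∈ split D := mem_split.2 ⟨h1, h2⟩
        rw [h.2] at h3
        obtain ⟨i, -, hi⟩ := Finset.mem_image.1 h3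
        exact ⟨i.succ, Finset.mem_univ _, hi⟩
    · rintro ⟨i, -, rfl⟩
      refine Fin.cases ?_ (fun i => ?_) i
      · exact ⟨Or.inl rfl, h7⟩
      · exact ⟨Or.inr (h.pf i), (mem_split.1 (h.mem i)).2⟩

theorem MM_split {D l : ℕ} {P : Fin n → ℕ} (hD : Adm D) (h : En D n P) (hl : l.Prime)
    (h4 : l % 4 = 1) (hlD : ¬ l ∣ D) :
    MM (D * l) (Fin.cons l P : Fin (n + 1) → ℕ) = bord (MM D P + diagonal fun i => nonsq (P i) l)
      (nonfourth l + ∑ r ∈ D.primeFactors, nonsq l r) (fun i => nonsq (P i) l) := by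
  have hD0 := hD.1.ne_zero
  have hpf : l ∉ D.primeFactors := fun h => hlD (Nat.dvd_of_mem_primeFactors h)
  ext i j
  refine Fin.cases ?_ (fun i => ?_) i
  · refine Fin.cases ?_ (fun j => ?_) j
    · unfold MM
      rw [Matrix.of_apply, if_pos rfl]
      show nonfourth l + ∑ r ∈ (D * l).primeFactors.erase l, nonsq l r =
        nonfourth l + ∑ r ∈ D.primeFactors, nonsq l r
      rw [pf_mul hD0 hl, Finset.erase_insert hpf]
    · unfold MM
      rw [Matrix.of_apply, if_neg (Fin.succ_ne_zero j).symm]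
      show nonsq l (P j) = nonsq (P j) l
      exact nonsq_symm hl (Nat.prime_of_mem_primeFactors (h.pf j)) h4 (hD.2 _ (h.pf j))
  · refine Fin.cases ?_ (fun j => ?_) j
    · unfold MM
      rw [Matrix.of_apply, if_neg (Fin.succ_ne_zero i)]
      rfl
    · show (if i.succ = j.succ then
        nonfourth (P i) + ∑ r ∈ (D * l).primeFactors.erase (P i), nonsq (P i) r
        else nonsq (P i) (P j)) = (MM D P + diagonal fun i => nonsq (P i) l) i j
      rw [Matrix.add_apply, Matrix.diagonal_apply]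
      unfold MM
      rw [Matrix.of_apply]
      simp only [Fin.succ_inj]
      by_cases hij : i = j
      · subst hij
        rw [if_pos rfl, if_pos rfl, if_pos rfl, diag_sum hD0 hl hlD (h.pf i), add_assoc]
      · rw [if_neg hij, if_neg hij, if_neg hij, add_zero]

/-! ### means -/

/-- the mean over the primes up to `X` in the class `C`; those that divide `D` are left out -/
noncomputable def av (C : ℕ → Prop) (D : ℕ) (T : ℕ → ℝ) (X : ℕ) : ℝ :=
  (∑ l ∈ (Finset.Icc 1 X).filter (fun l => l.Prime ∧ C l ∧ ¬ l ∣ D), T l) /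
    (((Finset.Icc 1 X).filter fun l => l.Prime ∧ C l).card : ℝ)

/-- the mean of a function of a symbol, from the densities -/
theorem av_of {β : Type} [Fintype β] (C : ℕ → Prop) (D : ℕ) (sy : ℕ → β) (F : β → ℝ) (T : ℕ → ℝ)
    (hT : ∀ l : ℕ, l.Prime → C l → ¬ l ∣ D → T l = F (sy l)) (d : ℝ)
    (hd : ∀ x : β, Tendsto (fun X : ℕ =>
      (((Finset.Icc 1 X).filter fun l => l.Prime ∧ C l ∧ (¬ l ∣ D ∧ sy l = x)).card : ℝ) /
        (((Finset.Icc 1 X).filter fun l => l.Prime ∧ C l).card : ℝ)) atTop (𝓝 (1 / d))) :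
    Tendsto (av C D T) atTop (𝓝 ((∑ x, F x) / d)) := by
  have h2 : Tendsto (fun X : ℕ => ∑ x : β, F x *
      ((((Finset.Icc 1 X).filter fun l => l.Prime ∧ C l ∧ (¬ l ∣ D ∧ sy l = x)).card : ℝ) /
        (((Finset.Icc 1 X).filter fun l => l.Prime ∧ C l).card : ℝ))) atTop
      (𝓝 (∑ x : β, F x * (1 / d))) :=
    tendsto_finsetSum _ fun x _ => (hd x).const_mul (F x)
  have h3 : ∑ x : β, F x * (1 / d) = (∑ x, F x) / d := by
    rw [← Finset.sum_mul, mul_one_div]
  rw [h3] at h2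
  refine h2.congr fun X => ?_
  unfold av
  rw [Finset.sum_div]
  have h8 : ∀ l ∈ (Finset.Icc 1 X).filter (fun l => l.Prime ∧ C l ∧ ¬ l ∣ D),
      T l / (((Finset.Icc 1 X).filter fun l => l.Prime ∧ C l).card : ℝ) =
      ∑ x : β, if sy l = x then F x /
        (((Finset.Icc 1 X).filter fun l => l.Prime ∧ C l).card : ℝ) else 0 := by
    intro l hl
    obtain ⟨-, p1, p2, p3⟩ := Finset.mem_filter.1 hl
    rw [Finset.sum_ite_eq, if_pos (Finset.mem_univ _), hT l p1 p2 p3]
  rw [Finset.sum_congr rfl h8, Finset.sum_comm]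
  refine Finset.sum_congr rfl fun x _ => ?_
  rw [← Finset.sum_filter, Finset.sum_const, nsmul_eq_mul, Finset.filter_filter]
  have h9 : (Finset.Icc 1 X).filter (fun l => l.Prime ∧ C l ∧ (¬ l ∣ D ∧ sy l = x)) =
      (Finset.Icc 1 X).filter (fun l => (l.Prime ∧ C l ∧ ¬ l ∣ D) ∧ sy l = x) :=
    Finset.filter_congr fun l _ => by
      constructor
      · rintro ⟨a, b, c, d⟩
        exact ⟨⟨a, b, c⟩, d⟩
      · rintro ⟨⟨a, b, c⟩, d⟩
        exact ⟨a, b, c, d⟩
  rw [h9]
  ring

theorem cf {s : Finset ℕ} {p q : ℕ → Prop} (ip : DecidablePred p) (iq : DecidablePred q)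
    (h : ∀ l, p l ↔ q l) : (@Finset.filter _ p ip s).card = (@Finset.filter _ q iq s).card := by
  congr 1
  ext l
  simp only [Finset.mem_filter, h l]

/-- inert -/
def Ci (l : ℕ) : Prop := l % 4 = 1 ∧ ¬ IsSquare (-7 : ZMod l)

/-- split -/
def Cs (l : ℕ) : Prop := l % 4 = 1 ∧ IsSquare (-7 : ZMod l)

/-- all -/
def Ca (l : ℕ) : Prop := l % 4 = 1

section
variable {D : ℕ} {P : Fin n → ℕ}

theorem card_vec2 : Nat.card (Fin n → ZMod 2) = 2 ^ n := by
  rw [Nat.card_fun]
  simp

/-- **the mean over the inert primes** -/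
theorem mean_inert (hD : Adm D) (h : En D n P) (F : (Fin n → ZMod 2) → ℝ) (T : ℕ → ℝ)
    (hT : ∀ l : ℕ, l.Prime → Ci l → ¬ l ∣ D → T l = F (fun i => nonsq (P i) l)) :
    Tendsto (av Ci D T) atTop (𝓝 ((∑ x, F x) / 2 ^ n)) := by
  refine av_of Ci D (fun l => fun i => nonsq (P i) l) F T hT (2 ^ n) fun x => ?_
  have hR : ∀ r ∈ D.primeFactors, r.Prime ∧ r % 4 = 1 := fun r hr =>
    ⟨Nat.prime_of_mem_primeFactors hr, hD.2 r hr⟩
  have hq := quad_inert D.primeFactors hR D (Nat.pos_of_ne_zero hD.1.ne_zero)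
    (fun u => (fun i : Fin n => u ⟨P i, h.pf i⟩) = x)
    (fun l => ¬ l ∣ D ∧ (fun i => nonsq (P i) l) = x) (by
      intro p hp hpN h4 h7
      have e : (fun i : Fin n => nr2 p (P i)) = fun i => nonsq (P i) p := by
        funext i
        exact nonsq_symm hp.out (Nat.prime_of_mem_primeFactors (h.pf i)) h4 (hD.2 _ (h.pf i))
      show (fun i : Fin n => nr2 p (P i)) = x ↔ _
      rw [e]
      exact ⟨fun h1 => ⟨(bad_spec hpN).2.2.2, h1⟩, fun h1 => h1.2⟩)
  have e1 : (Nat.card {u : D.primeFactors → ZMod 2 // (fun i : Fin n => u ⟨P i, h.pf i⟩) = x} : ℝ) /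
      2 ^ D.primeFactors.card = 1 / 2 ^ n := by
    set f : (D.primeFactors → ZMod 2) →+ (Fin n → ZMod 2) :=
      { toFun := fun u i => u ⟨P i, h.pf i⟩
        map_zero' := rfl
        map_add' := fun _ _ => rfl } with hf
    have hs : Function.Surjective f := by
      intro y
      refine ⟨fun r => if hr : ∃ i, P i = r then y hr.choose else 0, ?_⟩
      funext i
      show (if hr : ∃ j, P j = P i then y hr.choose else 0) = y i
      have hex : ∃ j, P j = P i := ⟨i, rfl⟩
      rw [dif_pos hex, h.1 hex.choose_spec]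
    have h1 := ratio_hom f hs (fun y => y = x)
    rw [card_zmod2_fun, card_vec2] at h1
    have e2 : Nat.card {b : Fin n → ZMod 2 // b = x} = 1 := by simp
    rw [e2] at h1
    push_cast at h1
    exact h1
  rw [e1] at hq
  refine hq.congr fun X => ?_
  refine congrArg₂ (fun a b : ℕ => (a : ℝ) / (b : ℝ)) (cf _ _ fun l => ?_) (cf _ _ fun l => ?_)
  · unfold Ci
    tauto
  · unfold Ci
    tauto

/-- **the mean over the split primes** -/
theorem mean_split (hD : Adm D) (h : En D n P) (F : (Fin n → ZMod 2) → ZMod 2 → ℝ) (T : ℕ → ℝ)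
    (hT : ∀ l : ℕ, l.Prime → Cs l → ¬ l ∣ D → T l =
      F (fun i => nonsq (P i) l) (nonfourth l + ∑ r ∈ D.primeFactors, nonsq l r)) :
    Tendsto (av Cs D T) atTop (𝓝 ((∑ v, ∑ d, F v d) / 2 ^ (n + 1))) := by
  have e0 : ∑ v, ∑ d, F v d = ∑ x : (Fin n → ZMod 2) × ZMod 2, F x.1 x.2 := by
    rw [Fintype.sum_prod_type]
  rw [e0]
  refine av_of Cs D (fun l => ((fun i => nonsq (P i) l),
    nonfourth l + ∑ r ∈ D.primeFactors, nonsq l r)) (fun x => F x.1 x.2) T hT (2 ^ (n + 1)) fun x => ?_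
  have hR : ∀ r ∈ D.primeFactors, r.Prime ∧ r % 4 = 1 := fun r hr =>
    ⟨Nat.prime_of_mem_primeFactors hr, hD.2 r hr⟩
  have hq := quad_split D.primeFactors hR D (Nat.pos_of_ne_zero hD.1.ne_zero)
    (fun u => ((fun i : Fin n => u.1 ⟨P i, h.pf i⟩), u.2 + ∑ r, u.1 r) = x)
    (fun l => ¬ l ∣ D ∧ ((fun i => nonsq (P i) l),
      nonfourth l + ∑ r ∈ D.primeFactors, nonsq l r) = x) (by
      intro p hp hpN h4 h7
      have e : (fun i : Fin n => nr2 p (P i)) = fun i => nonsq (P i) p := by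
        funext i
        exact nonsq_symm hp.out (Nat.prime_of_mem_primeFactors (h.pf i)) h4 (hD.2 _ (h.pf i))
      have e' : ∑ r : D.primeFactors, nr2 p r = ∑ r ∈ D.primeFactors, nonsq p r :=
        Finset.sum_coe_sort D.primeFactors (fun r => nonsq p r)
      show ((fun i : Fin n => nr2 p (P i)), n47 p + ∑ r : D.primeFactors, nr2 p r) = x ↔ _
      rw [e, e']
      exact ⟨fun h1 => ⟨(bad_spec hpN).2.2.2, h1⟩, fun h1 => h1.2⟩)
  have e1 : (Nat.card {u : (D.primeFactors → ZMod 2) × ZMod 2 //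
      ((fun i : Fin n => u.1 ⟨P i, h.pf i⟩), u.2 + ∑ r, u.1 r) = x} : ℝ) /
      2 ^ (D.primeFactors.card + 1) = 1 / 2 ^ (n + 1) := by
    set f : ((D.primeFactors → ZMod 2) × ZMod 2) →+ ((Fin n → ZMod 2) × ZMod 2) :=
      { toFun := fun u => ((fun i : Fin n => u.1 ⟨P i, h.pf i⟩), u.2 + ∑ r, u.1 r)
        map_zero' := by
          refine Prod.ext rfl ?_
          show (0 : ZMod 2) + ∑ r : D.primeFactors, (0 : ZMod 2) = 0
          rw [Finset.sum_const_zero, add_zero]
        map_add' := fun a b => by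
          refine Prod.ext rfl ?_
          show a.2 + b.2 + ∑ r, (a.1 r + b.1 r) = (a.2 + ∑ r, a.1 r) + (b.2 + ∑ r, b.1 r)
          rw [Finset.sum_add_distrib]
          ring } with hf
    have hs : Function.Surjective f := by
      rintro ⟨y, d⟩
      refine ⟨(fun r => if hr : ∃ i, P i = r then y hr.choose else 0,
        d - ∑ r : D.primeFactors, if hr : ∃ i, P i = r then y hr.choose else 0), ?_⟩
      refine Prod.ext ?_ ?_
      · funext i
        show (if hr : ∃ j, P j = P i then y hr.choose else 0) = y i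
        have hex : ∃ j, P j = P i := ⟨i, rfl⟩
        rw [dif_pos hex, h.1 hex.choose_spec]
      · show d - _ + _ = d
        rw [sub_add_cancel]
    have h1 := ratio_hom f hs (fun y => y = x)
    have e3 : Nat.card ((D.primeFactors → ZMod 2) × ZMod 2) = 2 ^ (D.primeFactors.card + 1) := by
      rw [Nat.card_prod, card_zmod2_fun, Nat.card_zmod, pow_succ]
    have e4 : Nat.card ((Fin n → ZMod 2) × ZMod 2) = 2 ^ (n + 1) := by
      rw [Nat.card_prod, card_vec2, Nat.card_zmod, pow_succ]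
    have e2 : Nat.card {b : (Fin n → ZMod 2) × ZMod 2 // b = x} = 1 := by simp
    rw [e3, e4, e2] at h1
    push_cast at h1
    exact h1
  rw [e1] at hq
  refine hq.congr fun X => ?_
  refine congrArg₂ (fun a b : ℕ => (a : ℝ) / (b : ℝ)) (cf _ _ fun l => ?_) (cf _ _ fun l => ?_)
  · unfold Cs
    tauto
  · unfold Cs
    tauto

end

/-- half of the primes are inert -/
theorem half_inert : Tendsto (fun X : ℕ =>
    (((Finset.Icc 1 X).filter fun l => l.Prime ∧ Ci l).card : ℝ) /
      (((Finset.Icc 1 X).filter fun l => l.Prime ∧ Ca l).card : ℝ)) atTop (𝓝 (1 / 2)) := by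
  have hR : ∀ r ∈ (∅ : Finset ℕ), r.Prime ∧ r % 4 = 1 := by simp
  have hR0 : ∀ r ∈ (∅ : Finset ℕ), r ≠ 0 := by simp
  obtain ⟨L, hL, hN, hGal, ⟨E3, E⟩⟩ := exists_dat ∅ (by simp) (∅ : Finset ℕ)
  have hs := surjΘ0 E3 E hR0 hR
  have d1 := dens_gen (K0 E) (A := ((∅ : Finset ℕ) → ZMod 2) × ZMod 2) (Θ0 E hR0) hs
    (fun a => a.2 = 1) (fun p => p % 4 = 1 ∧ ¬ IsSquare (-7 : ZMod p)) (bad ∅ 1)
    (bad_pos hR one_pos) (by
      intro p hp hpN φ g hφ
      obtain ⟨h2, h7, -, -⟩ := bad_spec hpN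
      constructor
      · rintro ⟨h4, h5⟩
        refine ⟨(E.frob_I hφ h2).2 h4, ?_⟩
        show Q283.TW.ng g (E.θ ^ 2) = 1
        unfold Q283.TW.ng
        rw [if_neg fun h => h5 ((E.frob_7 hφ h2 h7).1 h)]
      · rintro ⟨hg, hq'⟩
        refine ⟨(E.frob_I hφ h2).1 hg, ?_⟩
        rw [← E.frob_7 hφ h2 h7]
        intro h
        have hq2 : Q283.TW.ng g (E.θ ^ 2) = 1 := hq'
        unfold Q283.TW.ng at hq2
        rw [if_pos h] at hq2
        exact zero_ne_one hq2)
  have d0 := dens_gen (K0 E) (A := ((∅ : Finset ℕ) → ZMod 2) × ZMod 2) (Θ0 E hR0) hs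
    (fun _ => True) (fun p => p % 4 = 1) (bad ∅ 1)
    (bad_pos hR one_pos) (by
      intro p hp hpN φ g hφ
      obtain ⟨h2, h7, -, -⟩ := bad_spec hpN
      exact ⟨fun h4 => ⟨(E.frob_I hφ h2).2 h4, trivial⟩, fun h => (E.frob_I hφ h2).1 h.1⟩)
  have c1 : Nat.card {a : ((∅ : Finset ℕ) → ZMod 2) × ZMod 2 // a.2 = 1} = 1 := by
    have := Pool.Agent.U687.JT.card_fst1 ∅
    rw [this]
    rfl
  have c0 : Nat.card {a : ((∅ : Finset ℕ) → ZMod 2) × ZMod 2 // True} = 2 := by
    have e1 : Nat.card (((∅ : Finset ℕ) → ZMod 2) × ZMod 2) = 2 := by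
      rw [Nat.card_prod, card_zmod2_fun, Nat.card_zmod]
      rfl
    exact (Nat.card_congr (Equiv.subtypeUnivEquiv fun _ => trivial)).trans e1
  rw [c1] at d1
  rw [c0] at d0
  have hH : 0 < Nat.card (K0 E) := Nat.card_pos
  have hGa : 0 < Nat.card Gal(L/ℚ) := Nat.card_pos
  have hA : 0 < Nat.card (((∅ : Finset ℕ) → ZMod 2) × ZMod 2) := Nat.card_pos
  have h := ratio_lim (by positivity) d1 d0
  have e : (Nat.card (K0 E) : ℝ) / (Nat.card Gal(L/ℚ) : ℝ) *
      (((1 : ℕ) : ℝ) / Nat.card (((∅ : Finset ℕ) → ZMod 2) × ZMod 2)) /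
      ((Nat.card (K0 E) : ℝ) / (Nat.card Gal(L/ℚ) : ℝ) *
      (((2 : ℕ) : ℝ) / Nat.card (((∅ : Finset ℕ) → ZMod 2) × ZMod 2))) = 1 / 2 := by
    push_cast
    field_simp
  rw [e] at h
  refine h.congr fun X => ?_
  exact congrArg₂ (fun a b : ℕ => (a : ℝ) / (b : ℝ)) (cf _ _ fun l => Iff.rfl)
    (cf _ _ fun l => Iff.rfl)

/-- the number of all primes -/
theorem card_all (X : ℕ) : ((Finset.Icc 1 X).filter fun l => l.Prime ∧ Ca l).card =
    ((Finset.Icc 1 X).filter fun l => l.Prime ∧ Ci l).card +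
      ((Finset.Icc 1 X).filter fun l => l.Prime ∧ Cs l).card := by
  rw [← Finset.card_union_of_disjoint]
  · congr 1
    ext l
    simp only [Finset.mem_union, Finset.mem_filter]
    unfold Ca Ci Cs
    tauto
  · rw [Finset.disjoint_filter]
    intro l _ h1 h2
    exact h1.2.2 h2.2.2

theorem sum_all (D : ℕ) (T : ℕ → ℝ) (X : ℕ) :
    ∑ l ∈ (Finset.Icc 1 X).filter (fun l => l.Prime ∧ Ca l ∧ ¬ l ∣ D), T l =
      ∑ l ∈ (Finset.Icc 1 X).filter (fun l => l.Prime ∧ Ci l ∧ ¬ l ∣ D), T l +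
      ∑ l ∈ (Finset.Icc 1 X).filter (fun l => l.Prime ∧ Cs l ∧ ¬ l ∣ D), T l := by
  rw [← Finset.sum_union]
  · refine Finset.sum_congr ?_ fun _ _ => rfl
    ext l
    simp only [Finset.mem_union, Finset.mem_filter]
    unfold Ca Ci Cs
    tauto
  · rw [Finset.disjoint_filter]
    intro l _ h1 h2
    exact h1.2.1.2 h2.2.1.2

theorem av_mul (C : ℕ → Prop) (D : ℕ) (T : ℕ → ℝ) (X : ℕ) :
    ∑ l ∈ (Finset.Icc 1 X).filter (fun l => l.Prime ∧ C l ∧ ¬ l ∣ D), T l =
      av C D T X * (((Finset.Icc 1 X).filter fun l => l.Prime ∧ C l).card : ℝ) := by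
  unfold av
  by_cases h : ((Finset.Icc 1 X).filter fun l => l.Prime ∧ C l).card = 0
  · have h1 : (Finset.Icc 1 X).filter (fun l => l.Prime ∧ C l ∧ ¬ l ∣ D) = ∅ := by
      rw [Finset.card_eq_zero] at h
      rw [Finset.eq_empty_iff_forall_notMem] at h ⊢
      intro l hl
      apply h l
      rw [Finset.mem_filter] at hl ⊢
      exact ⟨hl.1, hl.2.1, hl.2.2.1⟩
    rw [h1, Finset.sum_empty, zero_div, zero_mul]
  · have h1 : (((Finset.Icc 1 X).filter fun l => l.Prime ∧ C l).card : ℝ) ≠ 0 := by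
      exact_mod_cast h
    rw [div_mul_cancel₀ _ h1]

/-- half of the primes split -/
theorem half_split : Tendsto (fun X : ℕ =>
    (((Finset.Icc 1 X).filter fun l => l.Prime ∧ Cs l).card : ℝ) /
      (((Finset.Icc 1 X).filter fun l => l.Prime ∧ Ca l).card : ℝ)) atTop (𝓝 (1 / 2)) := by
  have h1 := (tendsto_const_nhds (x := (1 : ℝ))).sub half_inert
  have e : (1 : ℝ) - 1 / 2 = 1 / 2 := by norm_num
  rw [e] at h1
  refine h1.congr' ?_
  filter_upwards [eventually_ge_atTop 5] with X hX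
  have hpos : (((Finset.Icc 1 X).filter fun l => l.Prime ∧ Ca l).card : ℝ) ≠ 0 := by
    have : 5 ∈ (Finset.Icc 1 X).filter fun l => l.Prime ∧ Ca l := by
      rw [Finset.mem_filter, Finset.mem_Icc]
      refine ⟨⟨by norm_num, hX⟩, by norm_num, ?_⟩
      unfold Ca
      norm_num
    have h2 := Finset.card_pos.2 ⟨5, this⟩
    positivity
  have h3 : (((Finset.Icc 1 X).filter fun l => l.Prime ∧ Ca l).card : ℝ) =
      (((Finset.Icc 1 X).filter fun l => l.Prime ∧ Ci l).card : ℝ) +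
      (((Finset.Icc 1 X).filter fun l => l.Prime ∧ Cs l).card : ℝ) := by
    exact_mod_cast card_all X
  rw [eq_div_iff hpos, sub_mul, div_mul_cancel₀ _ hpos, one_mul, h3]
  ring

/-- **the mean over all the primes** -/
theorem mean_all {D : ℕ} {T : ℕ → ℝ} {a b : ℝ} (ha : Tendsto (av Ci D T) atTop (𝓝 a))
    (hb : Tendsto (av Cs D T) atTop (𝓝 b)) : Tendsto (av Ca D T) atTop (𝓝 ((a + b) / 2)) := by
  have h := (ha.mul half_inert).add (hb.mul half_split)
  have e : a * (1 / 2) + b * (1 / 2) = (a + b) / 2 := by ring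
  rw [e] at h
  refine h.congr fun X => ?_
  show av Ci D T X * _ + av Cs D T X * _ = av Ca D T X
  rw [← mul_div_assoc, ← mul_div_assoc, ← av_mul, ← av_mul, ← add_div, ← sum_all]
  rfl

/-! ### the iterated means -/

/-- the classes of the primes -/
def CC (t : Fin 3) : ℕ → Prop := if t = 0 then Ci else if t = 1 then Cs else Ca

/-- the weights of the classes -/
noncomputable def wt (t : Fin 3) : ℝ := if t = 0 then 0 else if t = 1 then 1 else 1 / 2

/-- the iterated means -/
noncomputable def it (τ : ℕ → Fin 3) (T : ℕ → ℝ) : ℕ → ℕ → ℝ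
  | 0, D => T D
  | k + 1, D => limUnder atTop (av (CC (τ k)) D (fun l => it τ T k (D * l)))

/-- **the iterated means of a function of the corank** -/
theorem it_main (τ : ℕ → Fin 3) (T : ℕ → ℝ) (G : ℕ → ℝ)
    (hT : ∀ (D n : ℕ) (P : Fin n → ℕ), Adm D → En D n P → T D = G (cor (MM D P))) (k : ℕ) :
    ∀ (D n : ℕ) (P : Fin n → ℕ), Adm D → En D n P →
      it τ T k D = PP (fun i => wt (τ i)) G k n (MM D P) ∧
      Tendsto (av (CC (τ k)) D (fun l => it τ T k (D * l))) atTop
        (𝓝 (PP (fun i => wt (τ i)) G (k + 1) n (MM D P))) := by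
  -- the second statement follows from the first one for `D l`
  have key : ∀ k : ℕ, (∀ (D n : ℕ) (P : Fin n → ℕ), Adm D → En D n P →
      it τ T k D = PP (fun i => wt (τ i)) G k n (MM D P)) →
      ∀ (D n : ℕ) (P : Fin n → ℕ), Adm D → En D n P →
      Tendsto (av (CC (τ k)) D (fun l => it τ T k (D * l))) atTop
        (𝓝 (PP (fun i => wt (τ i)) G (k + 1) n (MM D P))) := by
    intro k ih D n P hD h
    have hD0 := hD.1.ne_zero
    have h1 := mean_inert hD h (fun x => PP (fun i => wt (τ i)) G k n (MM D P + diagonal x))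
      (fun l => it τ T k (D * l)) (by
        intro l hl hC hlD
        show it τ T k (D * l) = _
        rw [ih (D * l) n P (adm_mul hD hl hC.1 hlD) (en_inert hD0 h hl hC.2), MM_inert hD0 h hl hlD])
    have h2 := mean_split hD h
      (fun v d => PP (fun i => wt (τ i)) G k (n + 1) (bord (MM D P + diagonal v) d v))
      (fun l => it τ T k (D * l)) (by
        intro l hl hC hlD
        show it τ T k (D * l) = _
        rw [ih (D * l) (n + 1) (Fin.cons l P) (adm_mul hD hl hC.1 hlD)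
          (en_split hD0 h hl hlD hC.2), MM_split hD h hl hC.1 hlD])
    show Tendsto _ _ (𝓝 ((1 - wt (τ k)) *
      ((∑ v : Fin n → ZMod 2, PP (fun i => wt (τ i)) G k n (MM D P + diagonal v)) / 2 ^ n) +
      wt (τ k) * ((∑ v : Fin n → ZMod 2, ∑ d : ZMod 2,
        PP (fun i => wt (τ i)) G k (n + 1) (bord (MM D P + diagonal v) d v)) / 2 ^ (n + 1))))
    have h3 : τ k = 0 ∨ τ k = 1 ∨ τ k = 2 := by
      have : ∀ t : Fin 3, t = 0 ∨ t = 1 ∨ t = 2 := by decide
      exact this _
    rcases h3 with h3 | h3 | h3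
    · rw [h3]
      have e1 : CC 0 = Ci := rfl
      have e2 : wt 0 = 0 := rfl
      rw [e1, e2, sub_zero, one_mul, zero_mul, add_zero]
      exact h1
    · rw [h3]
      have e1 : CC 1 = Cs := rfl
      have e2 : wt 1 = 1 := rfl
      rw [e1, e2, sub_self, one_mul, zero_mul, zero_add]
      exact h2
    · rw [h3]
      have e1 : CC 2 = Ca := rfl
      have e2 : wt 2 = 1 / 2 := rfl
      rw [e1, e2]
      have h4 := mean_all h1 h2
      have e3 : ∀ a b : ℝ, (a + b) / 2 = (1 - 1 / 2) * a + 1 / 2 * b := fun a b => by ring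
      rw [e3] at h4
      exact h4
  intro D n P hD h
  have first : ∀ k : ℕ, ∀ (D n : ℕ) (P : Fin n → ℕ), Adm D → En D n P →
      it τ T k D = PP (fun i => wt (τ i)) G k n (MM D P) := by
    intro k
    induction k with
    | zero =>
      intro D n P hD h
      exact hT D n P hD h
    | succ k ih =>
      intro D n P hD h
      exact (key k ih D n P hD h).limUnder_eq
  exact ⟨first k D n P hD h, key k (first k) D n P hD h⟩

end Pool.Agent.U687.Q2
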