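import Mathlib

/-!
# Symmetric matrices with a new row and column
-/

set_option autoImplicit false
set_option linter.unusedSectionVars false

open scoped Classical

namespace Pool.Agent.U687.Q2

open Finset Matrix

theorem sq_one' {f : ZMod 2} (h : f ≠ 0) : f * f = 1 := by
  have : ∀ f : ZMod 2, f ≠ 0 → f * f = 1 := by decide
  exact this _ h

variable {n : ℕ}

/-- the number of the elements of the kernel -/
theorem card_ker (A : Matrix (Fin n) (Fin n) (ZMod 2)) :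
    Nat.card {v : Fin n → ZMod 2 // A *ᵥ v = 0} = 2 ^ (n - A.rank) ∧ A.rank ≤ n := by
  have h0 := LinearMap.finrank_range_add_finrank_ker A.mulVecLin
  have h1 : Module.finrank (ZMod 2) (Fin n → ZMod 2) = n := by
    rw [Module.finrank_fin_fun]
  rw [h1] at h0
  have h2 : Module.finrank (ZMod 2) (LinearMap.range A.mulVecLin) = A.rank := rfl
  rw [h2] at h0
  refine ⟨?_, by omega⟩
  have h3 : Nat.card (LinearMap.ker A.mulVecLin) =
      2 ^ Module.finrank (ZMod 2) (LinearMap.ker A.mulVecLin) := by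
    rw [Module.natCard_eq_pow_finrank (K := ZMod 2), Nat.card_zmod]
  have h4 : Nat.card {v : Fin n → ZMod 2 // A *ᵥ v = 0} = Nat.card (LinearMap.ker A.mulVecLin) :=
    Nat.card_congr (Equiv.subtypeEquivRight fun v => by
      rw [LinearMap.mem_ker, Matrix.mulVecLin_apply])
  rw [h4, h3]
  congr 1
  omega

/-- the matrix with a new row and column -/
def bord (M : Matrix (Fin n) (Fin n) (ZMod 2)) (c : ZMod 2) (b : Fin n → ZMod 2) :
    Matrix (Fin (n + 1)) (Fin (n + 1)) (ZMod 2) :=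
  Matrix.of (Fin.cons (Fin.cons c b) fun j => Fin.cons (b j) (M j))

/-- the number of the elements of the kernel -/
noncomputable def kc (M : Matrix (Fin n) (Fin n) (ZMod 2)) : ℕ :=
  Nat.card {v : Fin n → ZMod 2 // M *ᵥ v = 0}

theorem bord_zero (M : Matrix (Fin n) (Fin n) (ZMod 2)) (c t : ZMod 2) (b v : Fin n → ZMod 2) :
    (bord M c b *ᵥ (Fin.cons t v : Fin (n + 1) → ZMod 2)) 0 = c * t + b ⬝ᵥ v := by
  unfold Matrix.mulVec dotProduct bord
  rw [Fin.sum_univ_succ]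
  rfl

theorem bord_succ (M : Matrix (Fin n) (Fin n) (ZMod 2)) (c t : ZMod 2) (b v : Fin n → ZMod 2)
    (j : Fin n) :
    (bord M c b *ᵥ (Fin.cons t v : Fin (n + 1) → ZMod 2)) j.succ = b j * t + (M *ᵥ v) j := by
  unfold Matrix.mulVec dotProduct bord
  rw [Fin.sum_univ_succ]
  rfl

theorem bord_iff (M : Matrix (Fin n) (Fin n) (ZMod 2)) (c t : ZMod 2) (b v : Fin n → ZMod 2) :
    bord M c b *ᵥ (Fin.cons t v : Fin (n + 1) → ZMod 2) = 0 ↔
      c * t + b ⬝ᵥ v = 0 ∧ t • b + M *ᵥ v = 0 := by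
  constructor
  · intro h
    refine ⟨by rw [← bord_zero M, h]; rfl, funext fun j => ?_⟩
    have h1 := congrFun h j.succ
    rw [bord_succ] at h1
    rw [Pi.add_apply, Pi.smul_apply, smul_eq_mul, mul_comm]
    exact h1
  · rintro ⟨h1, h2⟩
    funext j
    refine Fin.cases ?_ (fun j => ?_) j
    · rw [bord_zero]
      exact h1
    · rw [bord_succ]
      have h3 := congrFun h2 j
      rw [Pi.add_apply, Pi.smul_apply, smul_eq_mul, mul_comm] at h3
      exact h3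

/-- the kernel of the new matrix -/
def kerEquiv (M : Matrix (Fin n) (Fin n) (ZMod 2)) (c : ZMod 2) (b : Fin n → ZMod 2) :
    {V : Fin (n + 1) → ZMod 2 // bord M c b *ᵥ V = 0} ≃
      {p : ZMod 2 × (Fin n → ZMod 2) // c * p.1 + b ⬝ᵥ p.2 = 0 ∧ p.1 • b + M *ᵥ p.2 = 0} where
  toFun V := ⟨(V.1 0, fun k => V.1 k.succ), by
    rw [← bord_iff]
    have : (Fin.cons (V.1 0) (fun k => V.1 k.succ) : Fin (n + 1) → ZMod 2) = V.1 := by
      funext k
      refine Fin.cases rfl (fun k => rfl) k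
    rw [this]
    exact V.2⟩
  invFun p := ⟨Fin.cons p.1.1 p.1.2, (bord_iff M c p.1.1 b p.1.2).2 p.2⟩
  left_inv V := by
    apply Subtype.ext
    funext k
    refine Fin.cases rfl (fun k => rfl) k
  right_inv p := rfl

/-- a vector orthogonal to the kernel of a symmetric matrix is in its image -/
theorem exists_of_orth {M : Matrix (Fin n) (Fin n) (ZMod 2)} (hM : M.IsSymm) {b : Fin n → ZMod 2}
    (h : ∀ v, M *ᵥ v = 0 → b ⬝ᵥ v = 0) : ∃ u, M *ᵥ u = b := by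
  set φ : Module.Dual (ZMod 2) (Fin n → ZMod 2) := dotProductBilin (ZMod 2) (ZMod 2) b with hφ
  have h1 : φ ∈ (LinearMap.ker M.mulVecLin).dualAnnihilator := by
    rw [Submodule.mem_dualAnnihilator]
    intro v hv
    exact h v (by simpa using hv)
  rw [← LinearMap.range_dualMap_eq_dualAnnihilator_ker] at h1
  obtain ⟨ψ, hψ⟩ := h1
  refine ⟨fun i => ψ (Pi.single i 1), ?_⟩
  have h2 : ∀ v, (fun i => ψ (Pi.single i 1)) ⬝ᵥ v = ψ v := by
    intro v
    unfold dotProduct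
    have h3 : v = ∑ i, v i • (Pi.single i (1 : ZMod 2) : Fin n → ZMod 2) := by
      funext k
      simp [Finset.sum_apply, Pi.single_apply]
    conv_rhs => rw [h3]
    rw [map_sum]
    exact Finset.sum_congr rfl fun i _ => by rw [map_smul, smul_eq_mul, mul_comm]
  funext k
  have h4 : b ⬝ᵥ (Pi.single k 1) = ψ (M *ᵥ Pi.single k 1) := by
    have := LinearMap.congr_fun hψ (Pi.single k 1)
    exact this.symm
  rw [← h2, Matrix.dotProduct_mulVec, ← Matrix.mulVec_transpose, hM.eq] at h4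
  simp only [dotProduct_single, mul_one] at h4
  exact h4.symm

theorem dot_orth {M : Matrix (Fin n) (Fin n) (ZMod 2)} (hM : M.IsSymm) (u v : Fin n → ZMod 2) :
    (M *ᵥ u) ⬝ᵥ v = u ⬝ᵥ (M *ᵥ v) := by
  rw [Matrix.dotProduct_mulVec, ← Matrix.mulVec_transpose, hM.eq]

/-- a new column which is not in the image -/
theorem kc_out {M : Matrix (Fin n) (Fin n) (ZMod 2)} (hM : M.IsSymm) (c : ZMod 2)
    {b : Fin n → ZMod 2} (hb : ¬ ∃ u, M *ᵥ u = b) : 2 * kc (bord M c b) = kc M := by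
  obtain ⟨v₀, hv0, hv1⟩ : ∃ v₀, M *ᵥ v₀ = 0 ∧ b ⬝ᵥ v₀ = 1 := by
    by_contra hne
    apply hb
    refine exists_of_orth hM fun v hv => ?_
    by_contra h0
    apply hne
    refine ⟨(b ⬝ᵥ v) • v, ?_, ?_⟩
    · rw [Matrix.mulVec_smul, hv, smul_zero]
    · rw [dotProduct_smul, smul_eq_mul]
      exact sq_one' h0
  have ht : ∀ p : ZMod 2 × (Fin n → ZMod 2), p.1 • b + M *ᵥ p.2 = 0 → p.1 = 0 := by
    intro p hp
    by_contra h0
    apply hb
    refine ⟨(-p.1) • p.2, ?_⟩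
    rw [Matrix.mulVec_smul]
    have h1 : M *ᵥ p.2 = -(p.1 • b) := by
      rw [eq_neg_iff_add_eq_zero, add_comm]
      exact hp
    rw [h1, smul_neg, smul_smul, neg_mul, neg_smul, neg_neg, sq_one' h0,
      one_smul]
  unfold kc
  rw [Nat.card_congr (kerEquiv M c b)]
  have e3 : ∀ N : ℕ, 2 * N = Nat.card (ZMod 2) * N := fun N => by rw [Nat.card_zmod]
  rw [e3, ← Nat.card_prod]
  refine Nat.card_congr
    { toFun := fun x => ⟨x.2.1.2 + x.1 • v₀, ?_⟩
      invFun := fun v => (b ⬝ᵥ v.1, ⟨(0, v.1 - (b ⬝ᵥ v.1) • v₀), ?_, ?_⟩)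
      left_inv := fun x => ?_
      right_inv := fun v => ?_ }
  · have h1 := x.2.2.2
    have h2 := ht x.2.1 h1
    rw [h2, zero_smul, zero_add] at h1
    rw [Matrix.mulVec_add, h1, Matrix.mulVec_smul, hv0, smul_zero, add_zero]
  · show c * 0 + b ⬝ᵥ (v.1 - (b ⬝ᵥ v.1) • v₀) = 0
    rw [mul_zero, zero_add, dotProduct_sub, dotProduct_smul, hv1, smul_eq_mul, mul_one, sub_self]
  · show (0 : ZMod 2) • b + M *ᵥ (v.1 - (b ⬝ᵥ v.1) • v₀) = 0
    rw [zero_smul, zero_add, Matrix.mulVec_sub, v.2, Matrix.mulVec_smul, hv0, smul_zero, sub_zero]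
  · have h1 := x.2.2.2
    have h2 := ht x.2.1 h1
    have h3 := x.2.2.1
    rw [h2, mul_zero, zero_add] at h3
    have h4 : b ⬝ᵥ (x.2.1.2 + x.1 • v₀) = x.1 := by
      rw [dotProduct_add, h3, dotProduct_smul, hv1, smul_eq_mul, mul_one, zero_add]
    refine Prod.ext h4 (Subtype.ext (Prod.ext h2.symm ?_))
    show x.2.1.2 + x.1 • v₀ - (b ⬝ᵥ (x.2.1.2 + x.1 • v₀)) • v₀ = x.2.1.2
    rw [h4, add_sub_cancel_right]
  · apply Subtype.ext
    show v.1 - (b ⬝ᵥ v.1) • v₀ + (b ⬝ᵥ v.1) • v₀ = v.1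
    rw [sub_add_cancel]

theorem bord_in {M : Matrix (Fin n) (Fin n) (ZMod 2)} (hM : M.IsSymm) (c t : ZMod 2)
    (u v : Fin n → ZMod 2) :
    (c * t + (M *ᵥ u) ⬝ᵥ v = 0 ∧ t • (M *ᵥ u) + M *ᵥ v = 0) ↔
      t * (c - (M *ᵥ u) ⬝ᵥ u) = 0 ∧ M *ᵥ (v + t • u) = 0 := by
  have h1 : t • (M *ᵥ u) + M *ᵥ v = M *ᵥ (v + t • u) := by
    rw [Matrix.mulVec_add, Matrix.mulVec_smul, add_comm]
  rw [h1]
  refine and_congr_left fun h => ?_
  have h2 : (M *ᵥ u) ⬝ᵥ v = -(t * ((M *ᵥ u) ⬝ᵥ u)) := by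
    have h3 : (M *ᵥ u) ⬝ᵥ (v + t • u) = 0 := by
      rw [dot_orth hM, h, dotProduct_zero]
    rw [dotProduct_add, dotProduct_smul, smul_eq_mul] at h3
    exact eq_neg_of_add_eq_zero_left h3
  rw [h2]
  have h4 : c * t + -(t * ((M *ᵥ u) ⬝ᵥ u)) = t * (c - (M *ᵥ u) ⬝ᵥ u) := by ring
  rw [h4]

theorem kc_in {M : Matrix (Fin n) (Fin n) (ZMod 2)} (hM : M.IsSymm) {c : ZMod 2}
    (u : Fin n → ZMod 2) (hc : c ≠ (M *ᵥ u) ⬝ᵥ u) : kc (bord M c (M *ᵥ u)) = kc M := by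
  unfold kc
  rw [Nat.card_congr (kerEquiv M c _)]
  have h0 : ∀ p : ZMod 2 × (Fin n → ZMod 2),
      (c * p.1 + (M *ᵥ u) ⬝ᵥ p.2 = 0 ∧ p.1 • (M *ᵥ u) + M *ᵥ p.2 = 0) →
        p.1 = 0 ∧ M *ᵥ p.2 = 0 := by
    intro p hp
    rw [bord_in hM] at hp
    have h1 : p.1 = 0 := (mul_eq_zero.1 hp.1).resolve_right (sub_ne_zero.2 hc)
    refine ⟨h1, ?_⟩
    have h2 := hp.2
    rw [h1, zero_smul, add_zero] at h2
    exact h2
  refine Nat.card_congr
    { toFun := fun p => ⟨p.1.2, (h0 p.1 p.2).2⟩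
      invFun := fun v => ⟨(0, v.1), (bord_in hM c 0 u v.1).2 ⟨zero_mul _, by
        rw [zero_smul, add_zero]; exact v.2⟩⟩
      left_inv := fun p => Subtype.ext (Prod.ext (h0 p.1 p.2).1.symm rfl)
      right_inv := fun v => rfl }

theorem kc_up {M : Matrix (Fin n) (Fin n) (ZMod 2)} (hM : M.IsSymm)
    (u : Fin n → ZMod 2) : kc (bord M ((M *ᵥ u) ⬝ᵥ u) (M *ᵥ u)) = 2 * kc M := by
  unfold kc
  rw [Nat.card_congr (kerEquiv M _ _)]
  have e3 : ∀ N : ℕ, 2 * N = Nat.card (ZMod 2) * N := fun N => by rw [Nat.card_zmod]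
  rw [e3, ← Nat.card_prod]
  refine Nat.card_congr
    { toFun := fun p => (p.1.1, ⟨p.1.2 + p.1.1 • u, ((bord_in hM _ _ _ _).1 p.2).2⟩)
      invFun := fun x => ⟨(x.1, x.2.1 - x.1 • u), (bord_in hM _ _ u _).2 ⟨by
        rw [sub_self, mul_zero], by rw [sub_add_cancel]; exact x.2.2⟩⟩
      left_inv := fun p => Subtype.ext (Prod.ext rfl (add_sub_cancel_right _ _))
      right_inv := fun x => Prod.ext rfl (Subtype.ext (sub_add_cancel _ _)) }

end Pool.Agent.U687.Q2
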