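import Pool.Agent.U687.Q2.Border

/-!
# The Markov chain of the coranks over the field with two elements
-/

set_option autoImplicit false
set_option linter.unusedSectionVars false

open scoped Classical

namespace Pool.Agent.U687.Q2

open Finset Matrix Filter Topology

variable {n : ℕ}

/-- the corank -/
noncomputable def cor (M : Matrix (Fin n) (Fin n) (ZMod 2)) : ℕ := n - M.rank

theorem cor_rank (M : Matrix (Fin n) (Fin n) (ZMod 2)) : cor M + M.rank = n := by
  have := (card_ker M).2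
  unfold cor
  omega

theorem kc_eq (M : Matrix (Fin n) (Fin n) (ZMod 2)) : kc M = 2 ^ cor M := (card_ker M).1

theorem pow_inj {a b : ℕ} (h : 2 ^ a = 2 ^ b) : a = b :=
  Nat.pow_right_injective (by norm_num : 2 ≤ 2) h

theorem cor_congr {m : ℕ} {M : Matrix (Fin n) (Fin n) (ZMod 2)} {N : Matrix (Fin m) (Fin m) (ZMod 2)}
    (h : kc M = kc N) : cor M = cor N := by
  rw [kc_eq, kc_eq] at h
  exact pow_inj h

theorem cor_out {M : Matrix (Fin n) (Fin n) (ZMod 2)} (hM : M.IsSymm) (c : ZMod 2)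
    {b : Fin n → ZMod 2} (hb : ¬ ∃ u, M *ᵥ u = b) : cor (bord M c b) = cor M - 1 := by
  have h := kc_out hM c hb
  rw [kc_eq, kc_eq, ← pow_succ'] at h
  have := pow_inj h
  omega

theorem cor_in {M : Matrix (Fin n) (Fin n) (ZMod 2)} (hM : M.IsSymm) {c : ZMod 2}
    (u : Fin n → ZMod 2) (hc : c ≠ (M *ᵥ u) ⬝ᵥ u) : cor (bord M c (M *ᵥ u)) = cor M := by
  have h := kc_in hM u hc
  rw [kc_eq, kc_eq] at h
  exact pow_inj h

theorem cor_up {M : Matrix (Fin n) (Fin n) (ZMod 2)} (hM : M.IsSymm)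
    (u : Fin n → ZMod 2) : cor (bord M ((M *ᵥ u) ⬝ᵥ u) (M *ᵥ u)) = cor M + 1 := by
  have h := kc_up hM u
  rw [kc_eq, kc_eq, ← pow_succ'] at h
  exact pow_inj h

/-- the number of the vectors in the image -/
theorem card_img (M : Matrix (Fin n) (Fin n) (ZMod 2)) :
    (Finset.univ.filter fun b : Fin n → ZMod 2 => ∃ u, M *ᵥ u = b).card = 2 ^ M.rank := by
  have h1 : Nat.card (LinearMap.range M.mulVecLin) =
      2 ^ Module.finrank (ZMod 2) (LinearMap.range M.mulVecLin) := by
    rw [Module.natCard_eq_pow_finrank (K := ZMod 2), Nat.card_zmod]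
  have h2 : Module.finrank (ZMod 2) (LinearMap.range M.mulVecLin) = M.rank := rfl
  rw [h2] at h1
  rw [← h1, ← Fintype.card_subtype, ← Nat.card_eq_fintype_card]
  exact Nat.card_congr (Equiv.subtypeEquivRight fun b => by
    rw [LinearMap.mem_range]
    simp only [Matrix.mulVecLin_apply])

/-- the backward operator -/
noncomputable def UU (G : ℕ → ℝ) (r : ℕ) : ℝ :=
  (1 - (1 / 2) ^ r) * G (r - 1) + (1 / 2) ^ (r + 1) * (G r + G (r + 1))

theorem sum_c (a : ZMod 2) (x y : ℝ) : ∑ c : ZMod 2, (if c = a then x else y) = x + y := by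
  rw [show (Finset.univ : Finset (ZMod 2)) = {0, 1} from by decide,
    Finset.sum_insert (by decide), Finset.sum_singleton]
  have h : a = 0 ∨ a = 1 := by
    revert a
    decide
  rcases h with rfl | rfl
  · rw [if_pos rfl, if_neg (by decide)]
  · rw [if_neg (by decide), if_pos rfl, add_comm]

/-- **one step** -/
theorem step {M : Matrix (Fin n) (Fin n) (ZMod 2)} (hM : M.IsSymm) (G : ℕ → ℝ) :
    (∑ b : Fin n → ZMod 2, ∑ c : ZMod 2, G (cor (bord M c b))) / 2 ^ (n + 1) = UU G (cor M) := by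
  have h1 : ∀ b : Fin n → ZMod 2, ∑ c : ZMod 2, G (cor (bord M c b)) =
      if ∃ u, M *ᵥ u = b then G (cor M + 1) + G (cor M) else 2 * G (cor M - 1) := by
    intro b
    split_ifs with hb
    · obtain ⟨u, rfl⟩ := hb
      rw [← sum_c ((M *ᵥ u) ⬝ᵥ u)]
      refine Finset.sum_congr rfl fun c _ => ?_
      split_ifs with hc
      · rw [hc, cor_up hM]
      · rw [cor_in hM u hc]
    · rw [Finset.sum_congr rfl fun c _ => by rw [cor_out hM c hb], Finset.sum_const,
        Finset.card_univ, ZMod.card, nsmul_eq_mul]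
      norm_num
  rw [Finset.sum_congr rfl fun b _ => h1 b, Finset.sum_ite, Finset.sum_const, Finset.sum_const,
    card_img]
  have h2 : (Finset.univ.filter fun b : Fin n → ZMod 2 => ¬ ∃ u, M *ᵥ u = b).card +
      2 ^ M.rank = 2 ^ n := by
    have h3 := Finset.card_filter_add_card_filter_not (s := (Finset.univ : Finset (Fin n → ZMod 2)))
      (fun b => ∃ u, M *ᵥ u = b)
    rw [card_img, Finset.card_univ, Fintype.card_fun, Fintype.card_fin, ZMod.card] at h3
    omega
  have h4 : ((Finset.univ.filter fun b : Fin n → ZMod 2 => ¬ ∃ u, M *ᵥ u = b).card : ℝ) =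
      2 ^ n - 2 ^ M.rank := by
    have : ((Finset.univ.filter fun b : Fin n → ZMod 2 => ¬ ∃ u, M *ᵥ u = b).card : ℝ) +
      2 ^ M.rank = 2 ^ n := by exact_mod_cast h2
    linarith
  rw [nsmul_eq_mul, nsmul_eq_mul, h4]
  push_cast
  have h5 : (2 : ℝ) ^ n = 2 ^ cor M * 2 ^ M.rank := by rw [← pow_add, cor_rank]
  unfold UU
  rw [pow_succ (2 : ℝ) n, h5, pow_succ (1 / 2 : ℝ), div_pow, one_pow]
  have h6 : (2 : ℝ) ^ cor M ≠ 0 := by positivity
  have h7 : (2 : ℝ) ^ M.rank ≠ 0 := by positivity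
  field_simp
  ring

theorem bord_symm {M : Matrix (Fin n) (Fin n) (ZMod 2)} (hM : M.IsSymm) (c : ZMod 2)
    (b : Fin n → ZMod 2) : (bord M c b).IsSymm := by
  ext j k
  rw [Matrix.transpose_apply]
  refine Fin.cases ?_ (fun j => ?_) j
  · refine Fin.cases rfl (fun k => rfl) k
  · refine Fin.cases rfl (fun k => ?_) k
    show M k j = M j k
    exact congrFun (congrFun hM j) k

theorem diag_symm {M : Matrix (Fin n) (Fin n) (ZMod 2)} (hM : M.IsSymm) (y : Fin n → ZMod 2) :
    (M + diagonal y).IsSymm := by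
  unfold Matrix.IsSymm
  rw [Matrix.transpose_add, Matrix.diagonal_transpose, hM.eq]

theorem bord_diag (M : Matrix (Fin n) (Fin n) (ZMod 2)) (d c : ZMod 2) (b y : Fin n → ZMod 2) :
    bord M d b + diagonal (Fin.cons c y : Fin (n + 1) → ZMod 2) =
      bord (M + diagonal y) (d + c) b := by
  ext j k
  rw [Matrix.add_apply, Matrix.diagonal_apply]
  refine Fin.cases ?_ (fun j => ?_) j
  · refine Fin.cases ?_ (fun k => ?_) k
    · show d + (if (0 : Fin (n + 1)) = 0 then c else 0) = d + c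
      rw [if_pos rfl]
    · show b k + (if (0 : Fin (n + 1)) = k.succ then c else 0) = b k
      rw [if_neg (Fin.succ_ne_zero k).symm, add_zero]
  · refine Fin.cases ?_ (fun k => ?_) k
    · show b j + (if j.succ = (0 : Fin (n + 1)) then y j else 0) = b j
      rw [if_neg (Fin.succ_ne_zero j), add_zero]
    · show M j k + (if j.succ = k.succ then y j else 0) = (M + diagonal y) j k
      rw [Matrix.add_apply, Matrix.diagonal_apply]
      simp only [Fin.succ_inj]

theorem sum_cons (F : (Fin (n + 1) → ZMod 2) → ℝ) :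
    ∑ Y, F Y = ∑ c : ZMod 2, ∑ y : Fin n → ZMod 2, F (Fin.cons c y) := by
  rw [← Fintype.sum_prod_type']
  refine (Fintype.sum_equiv (Fin.consEquiv fun _ : Fin (n + 1) => ZMod 2) _ _ fun x => ?_).symm
  rfl

/-! ### two identities of coranks -/

theorem two_zero (x : ZMod 2) : x + x = 0 := by
  revert x
  decide

theorem add_self_fun (v : Fin n → ZMod 2) : v + v = 0 := funext fun i => two_zero (v i)

/-- the sum of the columns -/
def rs (A : Matrix (Fin n) (Fin n) (ZMod 2)) : Fin n → ZMod 2 := A *ᵥ fun _ => 1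

theorem rs_diag (A : Matrix (Fin n) (Fin n) (ZMod 2)) (v : Fin n → ZMod 2) :
    rs (A + diagonal v) = rs A + v := by
  unfold rs
  rw [Matrix.add_mulVec]
  congr 1
  funext i
  rw [Matrix.mulVec_diagonal, mul_one]

/-- **a border equal to the vector on the diagonal** -/
theorem kc_same {A : Matrix (Fin n) (Fin n) (ZMod 2)} (hA : A.IsSymm) (d : ZMod 2)
    (v : Fin n → ZMod 2) :
    kc (bord (A + diagonal v) d v) =
      kc (bord (A + diagonal v) (d + (∑ i, v i + ∑ i, rs A i)) (rs A)) := by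
  have hd : ∀ x : Fin n → ZMod 2, diagonal v *ᵥ x = v * x := fun x =>
    funext fun i => Matrix.mulVec_diagonal v x i
  have hone : ∀ x : Fin n → ZMod 2, (∑ i, x i) = (fun _ => (1 : ZMod 2)) ⬝ᵥ x := fun x => by
    unfold dotProduct
    exact Finset.sum_congr rfl fun i _ => (one_mul _).symm
  have key : ∀ (t : ZMod 2) (x : Fin n → ZMod 2),
      (d * t + v ⬝ᵥ x = 0 ∧ t • v + (A + diagonal v) *ᵥ x = 0) ↔
      ((d + (∑ i, v i + ∑ i, rs A i)) * t + rs A ⬝ᵥ (x + t • fun _ => 1) = 0 ∧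
        t • rs A + (A + diagonal v) *ᵥ (x + t • fun _ => 1) = 0) := by
    intro t x
    have e1 : t • rs A + (A + diagonal v) *ᵥ (x + t • fun _ => 1) =
        t • v + (A + diagonal v) *ᵥ x := by
      rw [Matrix.mulVec_add, Matrix.mulVec_smul]
      have : (A + diagonal v) *ᵥ (fun _ => 1) = rs A + v := rs_diag A v
      rw [this, smul_add]
      have h0 := add_self_fun (t • rs A)
      calc t • rs A + ((A + diagonal v) *ᵥ x + (t • rs A + t • v)) =
          (t • rs A + t • rs A) + (t • v + (A + diagonal v) *ᵥ x) := by abel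
        _ = _ := by rw [h0, zero_add]
    rw [e1]
    refine and_congr_left fun h => ?_
    have h1 : (fun _ => (1 : ZMod 2)) ⬝ᵥ (t • v + (A + diagonal v) *ᵥ x) = 0 := by
      rw [h, dotProduct_zero]
    rw [dotProduct_add, dotProduct_smul, ← hone, smul_eq_mul,
      ← dot_orth (diag_symm hA v)] at h1
    have h2 : (A + diagonal v) *ᵥ (fun _ => (1 : ZMod 2)) = rs A + v := rs_diag A v
    rw [h2, add_dotProduct] at h1
    have h3 : rs A ⬝ᵥ (x + t • fun _ => 1) = rs A ⬝ᵥ x + t * ∑ i, rs A i := by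
      rw [dotProduct_add, dotProduct_smul, smul_eq_mul, hone, dotProduct_comm (rs A) (fun _ => 1)]
    rw [h3]
    have h4 : (d + (∑ i, v i + ∑ i, rs A i)) * t + (rs A ⬝ᵥ x + t * ∑ i, rs A i) =
        (d * t + v ⬝ᵥ x) + (t * ∑ i, v i + (rs A ⬝ᵥ x + v ⬝ᵥ x)) +
        ((∑ i, rs A i) * t + (∑ i, rs A i) * t) - (v ⬝ᵥ x + v ⬝ᵥ x) := by ring
    rw [h4, h1, two_zero, two_zero, add_zero, add_zero, sub_zero]
  unfold kc
  rw [Nat.card_congr (kerEquiv _ _ _), Nat.card_congr (kerEquiv _ _ _)]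
  refine Nat.card_congr
    { toFun := fun p => ⟨(p.1.1, p.1.2 + p.1.1 • fun _ => 1), (key p.1.1 p.1.2).1 p.2⟩
      invFun := fun p => ⟨(p.1.1, p.1.2 + p.1.1 • fun _ => 1), (key _ _).2 ?_⟩
      left_inv := fun p => Subtype.ext (Prod.ext rfl ?_)
      right_inv := fun p => Subtype.ext (Prod.ext rfl ?_) }
  · rw [add_assoc, add_self_fun, add_zero]
    exact p.2
  · show p.1.2 + (p.1.1 • fun _ => 1) + (p.1.1 • fun _ => 1) = p.1.2
    rw [add_assoc, add_self_fun, add_zero]
  · show p.1.2 + (p.1.1 • fun _ => 1) + (p.1.1 • fun _ => 1) = p.1.2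
    rw [add_assoc, add_self_fun, add_zero]

/-- **the first two rows and columns may be exchanged** -/
theorem kc_swap (M : Matrix (Fin n) (Fin n) (ZMod 2)) (c D d : ZMod 2) (b u : Fin n → ZMod 2) :
    kc (bord (bord M c b) D (Fin.cons d u)) = kc (bord (bord M D u) c (Fin.cons d b)) := by
  have key : ∀ (s t : ZMod 2) (x : Fin n → ZMod 2) (c D : ZMod 2) (b u : Fin n → ZMod 2),
      bord (bord M c b) D (Fin.cons d u) *ᵥ
        (Fin.cons s (Fin.cons t x : Fin (n + 1) → ZMod 2) : Fin (n + 2) → ZMod 2) = 0 →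
      bord (bord M D u) c (Fin.cons d b) *ᵥ
        (Fin.cons t (Fin.cons s x : Fin (n + 1) → ZMod 2) : Fin (n + 2) → ZMod 2) = 0 := by
    intro s t x c D b u h
    funext i
    have h0 := congrFun h 0
    have h1 := congrFun h (Fin.succ 0)
    rw [bord_zero] at h0
    rw [bord_succ, bord_zero] at h1
    have hd : ∀ (p q : ZMod 2) (y z : Fin n → ZMod 2),
        (Fin.cons p y : Fin (n + 1) → ZMod 2) ⬝ᵥ (Fin.cons q z : Fin (n + 1) → ZMod 2) =
          p * q + y ⬝ᵥ z := by
      intro p q y z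
      unfold dotProduct
      rw [Fin.sum_univ_succ]
      rfl
    rw [hd] at h0
    refine Fin.cases ?_ (fun i => ?_) i
    · rw [bord_zero, hd]
      have h1' : d * s + (c * t + b ⬝ᵥ x) = 0 := h1
      show c * t + (d * s + b ⬝ᵥ x) = 0
      rw [← h1']
      ring
    · rw [bord_succ]
      refine Fin.cases ?_ (fun i => ?_) i
      · rw [bord_zero]
        have h0' : D * s + (d * t + u ⬝ᵥ x) = 0 := h0
        show d * t + (D * s + u ⬝ᵥ x) = 0
        rw [← h0']
        ring
      · rw [bord_succ]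
        have h2 := congrFun h i.succ.succ
        rw [bord_succ, bord_succ] at h2
        have h2' : u i * s + (b i * t + (M *ᵥ x) i) = 0 := h2
        show b i * t + (u i * s + (M *ᵥ x) i) = 0
        rw [← h2']
        ring
  have hc : ∀ V : Fin (n + 2) → ZMod 2, V = Fin.cons (V 0) (Fin.cons (V (Fin.succ 0))
      (fun i => V i.succ.succ) : Fin (n + 1) → ZMod 2) := by
    intro V
    funext i
    refine Fin.cases rfl (fun i => ?_) i
    refine Fin.cases rfl (fun i => rfl) i
  unfold kc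
  refine Nat.card_congr
    { toFun := fun V => ⟨Fin.cons (V.1 (Fin.succ 0)) (Fin.cons (V.1 0)
        (fun i => V.1 i.succ.succ) : Fin (n + 1) → ZMod 2), key _ _ _ _ _ _ _ ?_⟩
      invFun := fun V => ⟨Fin.cons (V.1 (Fin.succ 0)) (Fin.cons (V.1 0)
        (fun i => V.1 i.succ.succ) : Fin (n + 1) → ZMod 2), key _ _ _ _ _ _ _ ?_⟩
      left_inv := fun V => Subtype.ext ?_
      right_inv := fun V => Subtype.ext ?_ }
  · have h := V.2
    rw [hc V.1] at h
    exact h
  · have h := V.2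
    rw [hc V.1] at h
    exact h
  · exact (hc V.1).symm
  · exact (hc V.1).symm

end Pool.Agent.U687.Q2
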