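import Pool.Agent.U687.Q2.Law
import Pool.Agent.Y948.CQ.C2A

/-!
# Convergence with the optimal rate
-/

set_option autoImplicit false
set_option linter.unusedSectionVars false

open scoped Classical

namespace Pool.Agent.U687.Q2

open Finset Matrix Filter Topology

/-! ### the weights -/

/-- `1 / ((2 - 1) (4 - 1) ⋯ (2 ^ r - 1))` -/
noncomputable def ee (r : ℕ) : ℝ := 1 / ∏ i ∈ Finset.range r, ((2 : ℝ) ^ (i + 1) - 1)

theorem p2_pos (r : ℕ) : (0 : ℝ) < (2 : ℝ) ^ (r + 1) - 1 := by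
  have : (1 : ℝ) < 2 ^ (r + 1) := one_lt_pow₀ (by norm_num) (by omega)
  linarith

theorem pd_pos (r : ℕ) : (0 : ℝ) < ∏ i ∈ Finset.range r, ((2 : ℝ) ^ (i + 1) - 1) :=
  Finset.prod_pos fun i _ => p2_pos i

theorem ee_pos (r : ℕ) : 0 < ee r := one_div_pos.2 (pd_pos r)

theorem ee_zero : ee 0 = 1 := by
  unfold ee
  simp

theorem ee_succ (r : ℕ) : ee r = ((2 : ℝ) ^ (r + 1) - 1) * ee (r + 1) := by
  unfold ee
  rw [Finset.prod_range_succ]
  have h1 := (p2_pos r).ne'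
  have h2 := (pd_pos r).ne'
  field_simp

theorem ee_anti (r : ℕ) : ee (r + 1) ≤ ee r := by
  have h1 := ee_succ r
  have h2 : (1 : ℝ) ≤ 2 ^ (r + 1) - 1 := by
    have : (2 : ℝ) ^ 1 ≤ 2 ^ (r + 1) := pow_le_pow_right₀ (by norm_num) (by omega)
    linarith
  have h3 := ee_pos (r + 1)
  nlinarith

theorem ee_third (r : ℕ) : ee (r + 2) ≤ 1 / 3 * ee (r + 1) := by
  have h1 := ee_succ (r + 1)
  have h2 : (3 : ℝ) ≤ 2 ^ (r + 1 + 1) - 1 := by
    have : (2 : ℝ) ^ 2 ≤ 2 ^ (r + 1 + 1) := pow_le_pow_right₀ (by norm_num) (by omega)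
    linarith
  have h3 := ee_pos (r + 2)
  nlinarith

theorem ee_mono {r s : ℕ} (h : r ≤ s) : ee s ≤ ee r :=
  antitone_nat_of_succ_le ee_anti h

theorem ee_le (r : ℕ) : ee r ≤ 3 * (1 / 3) ^ r := by
  rcases r with _ | r
  · rw [ee_zero]
    norm_num
  induction r with
  | zero =>
    have := ee_anti 0
    rw [ee_zero] at this
    norm_num
    linarith
  | succ r ih =>
    refine (ee_third r).trans ?_
    rw [pow_succ (1 / 3 : ℝ) (r + 1)]
    linarith

theorem ee_summable : Summable ee := by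
  refine Summable.of_nonneg_of_le (fun r => (ee_pos r).le) ee_le ?_
  exact (summable_geometric_of_lt_one (by norm_num) (by norm_num)).mul_left 3

/-- the weighted sum -/
noncomputable def ff (x : ℝ) : ℝ := ∑' r : ℕ, ee r * x ^ r

theorem ff_summable {x : ℝ} (h0 : 0 ≤ x) (h1 : x ≤ 1) : Summable fun r : ℕ => ee r * x ^ r := by
  refine Summable.of_nonneg_of_le (fun r => mul_nonneg (ee_pos r).le (pow_nonneg h0 r)) (fun r => ?_)
    ee_summable
  have := pow_le_one₀ (n := r) h0 h1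
  have h3 := ee_pos r
  nlinarith

theorem ff_rec {x : ℝ} (h0 : 0 ≤ x) (h1 : x ≤ 1) : ff x = (1 + x / 2) * ff (x / 2) := by
  have s1 := ff_summable h0 h1
  have s2 := ff_summable (x := x / 2) (by linarith) (by linarith)
  have h2 : ff x - ff (x / 2) = (x / 2) * ff (x / 2) := by
    unfold ff
    rw [← s1.tsum_sub s2]
    have s3 : Summable fun r : ℕ => ee r * x ^ r - ee r * (x / 2) ^ r := s1.sub s2
    rw [s3.tsum_eq_zero_add]
    rw [pow_zero, pow_zero, sub_self, zero_add, ← tsum_mul_left]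
    refine tsum_congr fun r => ?_
    rw [ee_succ r, div_pow, div_pow]
    have h3 : (2 : ℝ) ^ (r + 1) ≠ 0 := by positivity
    have h4 : (2 : ℝ) ^ r ≠ 0 := by positivity
    rw [pow_succ (2 : ℝ) r, pow_succ x r] at *
    field_simp
  linarith

theorem ff_prod (n : ℕ) : ff 1 = (∏ i ∈ Finset.range n, (1 + (1 / 2 : ℝ) ^ (i + 1))) *
    ff ((1 / 2) ^ n) := by
  induction n with
  | zero => simp
  | succ n ih =>
    rw [ih, ff_rec (x := (1 / 2) ^ n) (by positivity) (pow_le_one₀ (by norm_num) (by norm_num)),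
      Finset.prod_range_succ]
    have : (1 / 2 : ℝ) ^ n / 2 = (1 / 2) ^ (n + 1) := by rw [pow_succ]; ring
    rw [this]
    ring

theorem ff_small {x : ℝ} (h0 : 0 ≤ x) (h1 : x ≤ 1) : 1 ≤ ff x ∧ ff x ≤ 1 + x * ff 1 := by
  have s1 := ff_summable h0 h1
  have s2 := ff_summable (x := 1) (by norm_num) le_rfl
  have e1 : ff x = ee 0 * x ^ 0 + ∑' r : ℕ, ee (r + 1) * x ^ (r + 1) := s1.tsum_eq_zero_add
  have e2 : ff 1 = ee 0 * 1 ^ 0 + ∑' r : ℕ, ee (r + 1) * 1 ^ (r + 1) := s2.tsum_eq_zero_add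
  have s1' : Summable fun r : ℕ => ee (r + 1) * x ^ (r + 1) := (summable_nat_add_iff 1).2 s1
  have s2' : Summable fun r : ℕ => ee (r + 1) * (1 : ℝ) ^ (r + 1) := (summable_nat_add_iff 1).2 s2
  rw [ee_zero, pow_zero, one_mul] at e1 e2
  have h2 : 0 ≤ ∑' r : ℕ, ee (r + 1) * x ^ (r + 1) :=
    tsum_nonneg fun r => mul_nonneg (ee_pos _).le (pow_nonneg h0 _)
  have h3 : ∑' r : ℕ, ee (r + 1) * x ^ (r + 1) ≤ ∑' r : ℕ, x * (ee (r + 1) * (1 : ℝ) ^ (r + 1)) := by
    refine s1'.tsum_le_tsum (fun r => ?_) (s2'.mul_left x)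
    rw [one_pow, mul_one, pow_succ]
    have h4 := pow_le_one₀ (n := r) h0 h1
    have h5 : 0 ≤ x * ee (r + 1) := mul_nonneg h0 (ee_pos _).le
    nlinarith
  rw [tsum_mul_left] at h3
  constructor
  · linarith
  · rw [e1, e2]
    nlinarith

/-- the constant -/
noncomputable def lim2 : ℝ := ∏' i : ℕ, (1 - (1 / 2 : ℝ) ^ (2 * i + 1))

theorem lim2_facts :
    Tendsto (fun n => ∏ i ∈ Finset.range n, (1 - (1 / 2 : ℝ) ^ (2 * i + 1))) atTop (𝓝 lim2) ∧
      0 < lim2 ∧ lim2 < 1 ∧ 0.4194 < lim2 ∧ lim2 < 0.4195 := by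
  obtain ⟨h1, h2, h3, h4, h5⟩ := Pool.Agent.Y948.CQ.c2_main lim2 rfl
  refine ⟨?_, h2, h3, h4, h5⟩
  rw [tendsto_iff_norm_sub_tendsto_zero]
  refine squeeze_zero (fun n => norm_nonneg _) (fun n => ?_)
    (tendsto_pow_atTop_nhds_zero_of_lt_one (r := (1 / 4 : ℝ)) (by norm_num) (by norm_num))
  rw [Real.norm_eq_abs]
  exact h1 n

theorem fin_euler (n : ℕ) : (∏ i ∈ Finset.range n, (1 + (1 / 2 : ℝ) ^ (i + 1))) *
    ∏ i ∈ Finset.range n, (1 - (1 / 2 : ℝ) ^ (i + 1)) =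
      ∏ i ∈ Finset.range n, (1 - (1 / 4 : ℝ) ^ (i + 1)) := by
  rw [← Finset.prod_mul_distrib]
  refine Finset.prod_congr rfl fun i _ => ?_
  have : (1 / 4 : ℝ) ^ (i + 1) = (1 / 2) ^ (i + 1) * (1 / 2) ^ (i + 1) := by
    rw [← mul_pow]
    norm_num
  rw [this]
  ring

theorem fin_double (n : ℕ) : ∏ i ∈ Finset.range (2 * n), (1 - (1 / 2 : ℝ) ^ (i + 1)) =
    (∏ i ∈ Finset.range n, (1 - (1 / 2 : ℝ) ^ (2 * i + 1))) *
      ∏ i ∈ Finset.range n, (1 - (1 / 4 : ℝ) ^ (i + 1)) := by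
  induction n with
  | zero => simp
  | succ n ih =>
    rw [show 2 * (n + 1) = 2 * n + 1 + 1 by ring, Finset.prod_range_succ, Finset.prod_range_succ, ih,
      Finset.prod_range_succ, Finset.prod_range_succ]
    have : (1 / 4 : ℝ) ^ (n + 1) = (1 / 2) ^ (2 * n + 1 + 1) := by
      rw [show 2 * n + 1 + 1 = 2 * (n + 1) by ring, pow_mul]
      norm_num
    rw [this]
    ring

/-- the products `∏ (1 - x ^ (i + 1))` converge to a positive limit, `x = 1/2` -/
theorem half_lim : ∃ E : ℝ, 0 < E ∧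
    Tendsto (fun n => ∏ i ∈ Finset.range n, (1 - (1 / 2 : ℝ) ^ (i + 1))) atTop (𝓝 E) := by
  set P : ℕ → ℝ := fun n => ∏ i ∈ Finset.range n, (1 - (1 / 2 : ℝ) ^ (i + 1)) with hP
  have hf : ∀ i : ℕ, 0 < 1 - (1 / 2 : ℝ) ^ (i + 1) ∧ 1 - (1 / 2 : ℝ) ^ (i + 1) ≤ 1 := by
    intro i
    have h1 : (1 / 2 : ℝ) ^ (i + 1) < 1 := pow_lt_one₀ (by norm_num) (by norm_num) (by omega)
    have h2 : (0 : ℝ) < (1 / 2 : ℝ) ^ (i + 1) := by positivity
    constructor <;> linarith
  have hpos : ∀ n, 0 < P n := fun n => Finset.prod_pos fun i _ => (hf i).1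
  have hs : ∀ n, P (n + 1) = P n * (1 - (1 / 2 : ℝ) ^ (n + 1)) := fun n => by
    simp only [hP]
    rw [Finset.prod_range_succ]
  have hanti : Antitone P := antitone_nat_of_succ_le fun n => by
    rw [hs]
    have := (hf n).2
    have := hpos n
    nlinarith
  have hge : ∀ n, 1 / 4 + 1 / 4 * (1 / 2 : ℝ) ^ n ≤ P (n + 1) := by
    intro n
    induction n with
    | zero =>
      simp only [hP]
      norm_num
    | succ n ih =>
      rw [hs]
      have h1 : (0 : ℝ) < (1 / 2) ^ n := by positivity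
      have h2 : (1 / 2 : ℝ) ^ n ≤ 1 := pow_le_one₀ (by norm_num) (by norm_num)
      have e1 : (1 / 2 : ℝ) ^ (n + 1 + 1) = 1 / 4 * (1 / 2) ^ n := by
        rw [pow_succ, pow_succ]
        ring
      have e2 : (1 / 2 : ℝ) ^ (n + 1) = 1 / 2 * (1 / 2) ^ n := by
        rw [pow_succ]
        ring
      rw [e1, e2]
      have h3 : (1 / 4 + 1 / 4 * (1 / 2 : ℝ) ^ n) * (1 - 1 / 4 * (1 / 2) ^ n) ≤
          P (n + 1) * (1 - 1 / 4 * (1 / 2) ^ n) :=
        mul_le_mul_of_nonneg_right ih (by linarith)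
      nlinarith
  obtain ⟨E, hE⟩ : ∃ E, Tendsto P atTop (𝓝 E) :=
    ⟨_, tendsto_atTop_ciInf hanti ⟨0, by
      rintro x ⟨n, rfl⟩
      exact (hpos n).le⟩⟩
  refine ⟨E, ?_, hE⟩
  have h1 : (1 / 4 : ℝ) ≤ E := by
    refine ge_of_tendsto' (hE.comp (tendsto_add_atTop_nat 1)) fun n => ?_
    have := hge n
    have h2 : (0 : ℝ) < (1 / 2) ^ n := by positivity
    show (1 / 4 : ℝ) ≤ P (n + 1)
    linarith
  linarith

/-- **the sum of the weights** -/
theorem ff_one : ff 1 * lim2 = 1 := by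
  obtain ⟨E, hE, hlim⟩ := half_lim
  obtain ⟨hl, hl0, -, -, -⟩ := lim2_facts
  -- the limit of the products for 1/4
  have h4 : Tendsto (fun n => ∏ i ∈ Finset.range n, (1 - (1 / 4 : ℝ) ^ (i + 1))) atTop
      (𝓝 (E / lim2)) := by
    have h2 : Tendsto (fun n : ℕ => ∏ i ∈ Finset.range (2 * n), (1 - (1 / 2 : ℝ) ^ (i + 1))) atTop
        (𝓝 E) := hlim.comp (tendsto_id.const_mul_atTop' (by norm_num : 0 < 2))
    refine (h2.div hl hl0.ne').congr fun n => ?_
    have hp : (0 : ℝ) < ∏ i ∈ Finset.range n, (1 - (1 / 2 : ℝ) ^ (2 * i + 1)) :=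
      Finset.prod_pos fun i _ => by
        have : (1 / 2 : ℝ) ^ (2 * i + 1) < 1 := pow_lt_one₀ (by norm_num) (by norm_num) (by omega)
        linarith
    show (∏ i ∈ Finset.range (2 * n), (1 - (1 / 2 : ℝ) ^ (i + 1))) /
      (∏ i ∈ Finset.range n, (1 - (1 / 2 : ℝ) ^ (2 * i + 1))) = _
    rw [fin_double, mul_comm, mul_div_assoc, div_self hp.ne', mul_one]
  have hp : Tendsto (fun n => ∏ i ∈ Finset.range n, (1 + (1 / 2 : ℝ) ^ (i + 1))) atTop
      (𝓝 (E / lim2 / E)) := by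
    refine (h4.div hlim hE.ne').congr fun n => ?_
    have hq : (0 : ℝ) < ∏ i ∈ Finset.range n, (1 - (1 / 2 : ℝ) ^ (i + 1)) :=
      Finset.prod_pos fun i _ => by
        have : (1 / 2 : ℝ) ^ (i + 1) < 1 := pow_lt_one₀ (by norm_num) (by norm_num) (by omega)
        linarith
    show (∏ i ∈ Finset.range n, (1 - (1 / 4 : ℝ) ^ (i + 1))) /
      (∏ i ∈ Finset.range n, (1 - (1 / 2 : ℝ) ^ (i + 1))) = _
    rw [← fin_euler, mul_div_assoc, div_self hq.ne', mul_one]
  have h1 : Tendsto (fun n : ℕ => ff ((1 / 2) ^ n)) atTop (𝓝 1) := by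
    have h5 : Tendsto (fun n : ℕ => 1 + (1 / 2 : ℝ) ^ n * ff 1) atTop (𝓝 (1 + 0 * ff 1)) :=
      tendsto_const_nhds.add ((tendsto_pow_atTop_nhds_zero_of_lt_one (r := (1 / 2 : ℝ))
        (by norm_num) (by norm_num)).mul_const _)
    rw [zero_mul, add_zero] at h5
    refine tendsto_of_tendsto_of_tendsto_of_le_of_le tendsto_const_nhds h5 (fun n => ?_) (fun n => ?_)
    · exact (ff_small (by positivity) (pow_le_one₀ (by norm_num) (by norm_num))).1
    · exact (ff_small (by positivity) (pow_le_one₀ (by norm_num) (by norm_num))).2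
  have h6 : Tendsto (fun _ : ℕ => ff 1) atTop (𝓝 (E / lim2 / E * 1)) := by
    refine (hp.mul h1).congr fun n => ?_
    exact (ff_prod n).symm
  have h7 := tendsto_nhds_unique h6 tendsto_const_nhds
  rw [← h7]
  field_simp

/-! ### the limit law -/

/-- the limit law -/
noncomputable def prob (r : ℕ) : ℝ := lim2 * ee r

theorem prob_zero : prob 0 = lim2 := by
  unfold prob
  rw [ee_zero, mul_one]

theorem prob_hasSum : HasSum prob 1 := by
  have h1 : HasSum ee (ff 1) := by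
    have : ff 1 = ∑' r, ee r := tsum_congr fun r => by rw [one_pow, mul_one]
    rw [this]
    exact ee_summable.hasSum
  have h2 := h1.mul_left lim2
  rw [mul_comm lim2 (ff 1), ff_one] at h2
  exact h2

theorem prob_pos (r : ℕ) : 0 < prob r := mul_pos lim2_facts.2.1 (ee_pos r)

theorem TT_prob (r : ℕ) : TT prob r = prob r := by
  unfold TT prob
  have h0 : (2 : ℝ) ^ (r + 1) ≠ 0 := by positivity
  have h1 : (1 - (1 / 2 : ℝ) ^ (r + 1)) * (lim2 * ee (r + 1)) = (1 / 2) ^ (r + 1) * (lim2 * ee r) := by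
    rw [ee_succ r, one_div, inv_pow]
    field_simp
  rw [h1]
  rcases r with _ | r
  · rw [if_pos rfl]
    norm_num
    ring
  · rw [if_neg (Nat.succ_ne_zero r), Nat.add_sub_cancel]
    have h2 : (1 / 2 : ℝ) ^ (r + 1) * (lim2 * ee r) =
        (1 - (1 / 2) ^ (r + 1)) * (lim2 * ee (r + 1)) := by
      rw [ee_succ r, one_div, inv_pow]
      have h3 : (2 : ℝ) ^ (r + 1) ≠ 0 := by positivity
      field_simp
    rw [h2, pow_succ (1 / 2 : ℝ) (r + 1)]
    ring

/-! ### cumulative sums -/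

theorem cum_TT (μ : ℕ → ℝ) (r : ℕ) : ∑ s ∈ Finset.range (r + 1), TT μ s =
    (1 - (1 / 2) ^ (r + 1)) * ∑ s ∈ Finset.range (r + 2), μ s +
      (1 / 2) ^ (r + 1) * ∑ s ∈ Finset.range r, μ s := by
  induction r with
  | zero =>
    unfold TT
    simp [Finset.sum_range_succ]
    ring
  | succ r ih =>
    rw [Finset.sum_range_succ, ih]
    unfold TT
    rw [if_neg (Nat.succ_ne_zero r), Nat.add_sub_cancel]
    rw [Finset.sum_range_succ μ (r + 2), Finset.sum_range_succ μ (r + 1), Finset.sum_range_succ μ r]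
    ring

/-- the weight -/
noncomputable def ww : ℕ → ℝ
  | 0 => 0
  | r + 1 => ee r

theorem ww_rec (r : ℕ) : (1 - (1 / 2 : ℝ) ^ (r + 1)) * ww (r + 2) + (1 / 2) ^ (r + 1) * ww r =
    1 / 2 * ww (r + 1) := by
  rcases r with _ | r
  · show (1 - (1 / 2 : ℝ) ^ (0 + 1)) * ee 1 + (1 / 2) ^ (0 + 1) * 0 = 1 / 2 * ee 0
    have := ee_succ 0
    rw [this]
    norm_num
  · show (1 - (1 / 2 : ℝ) ^ (r + 1 + 1)) * ee (r + 2) + (1 / 2) ^ (r + 1 + 1) * ee r =
      1 / 2 * ee (r + 1)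
    rw [ee_succ r, ee_succ (r + 1), pow_succ (1 / 2 : ℝ) (r + 1), pow_succ (2 : ℝ) (r + 1), one_div,
      inv_pow]
    have h3 : (2 : ℝ) ^ (r + 1) ≠ 0 := by positivity
    field_simp
    ring

/-- the distance to the limit law is at most `B` -/
def Near (μ : ℕ → ℝ) (B : ℝ) : Prop :=
  ∀ r, |∑ s ∈ Finset.range r, μ s - ∑ s ∈ Finset.range r, prob s| ≤ B * ww r

theorem ww_nonneg (r : ℕ) : 0 ≤ ww r := by
  rcases r with _ | r
  · exact le_rfl
  · exact (ee_pos r).le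

/-- **the contraction** -/
theorem Near.step {μ : ℕ → ℝ} {B : ℝ} (h : Near μ B) : Near (TT μ) (B / 2) := by
  intro r
  rcases r with _ | r
  · simp [ww]
  have h3 : ∑ s ∈ Finset.range (r + 1), prob s = ∑ s ∈ Finset.range (r + 1), TT prob s :=
    Finset.sum_congr rfl fun s _ => (TT_prob s).symm
  rw [h3, cum_TT, cum_TT]
  have e1 : (1 - (1 / 2) ^ (r + 1)) * ∑ s ∈ Finset.range (r + 2), μ s +
      (1 / 2) ^ (r + 1) * ∑ s ∈ Finset.range r, μ s -
      ((1 - (1 / 2) ^ (r + 1)) * ∑ s ∈ Finset.range (r + 2), prob s +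
      (1 / 2) ^ (r + 1) * ∑ s ∈ Finset.range r, prob s) =
      (1 - (1 / 2) ^ (r + 1)) * (∑ s ∈ Finset.range (r + 2), μ s -
        ∑ s ∈ Finset.range (r + 2), prob s) +
      (1 / 2) ^ (r + 1) * (∑ s ∈ Finset.range r, μ s - ∑ s ∈ Finset.range r, prob s) := by ring
  rw [e1]
  have hp : (0 : ℝ) ≤ (1 / 2) ^ (r + 1) := by positivity
  have hp1 : ((1 / 2 : ℝ)) ^ (r + 1) ≤ 1 := pow_le_one₀ (by norm_num) (by norm_num)
  refine (abs_add_le _ _).trans ?_
  rw [abs_mul, abs_mul, abs_of_nonneg hp, abs_of_nonneg (by linarith : (0 : ℝ) ≤ 1 - (1 / 2) ^ (r + 1))]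
  have h1 := mul_le_mul_of_nonneg_left (h (r + 2)) (by linarith : (0 : ℝ) ≤ 1 - (1 / 2) ^ (r + 1))
  have h2 := mul_le_mul_of_nonneg_left (h r) hp
  refine (add_le_add h1 h2).trans (le_of_eq ?_)
  have := ww_rec r
  calc (1 - (1 / 2 : ℝ) ^ (r + 1)) * (B * ww (r + 2)) + (1 / 2) ^ (r + 1) * (B * ww r) =
      B * ((1 - (1 / 2 : ℝ) ^ (r + 1)) * ww (r + 2) + (1 / 2) ^ (r + 1) * ww r) := by ring
    _ = B / 2 * ww (r + 1) := by rw [this]; ring

theorem Near.mono {μ : ℕ → ℝ} {B C : ℝ} (h : Near μ B) (hBC : B ≤ C) : Near μ C := fun r =>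
  (h r).trans (mul_le_mul_of_nonneg_right hBC (ww_nonneg r))

theorem Near.nonneg {μ : ℕ → ℝ} {B : ℝ} (h : Near μ B) : 0 ≤ B := by
  have h1 := (abs_nonneg _).trans (h 1)
  have h2 : ww 1 = 1 := ee_zero
  rw [h2, mul_one] at h1
  exact h1

theorem Near.mix {μ ν : ℕ → ℝ} {B C t : ℝ} (h : Near μ B) (h' : Near ν C) (ht : 0 ≤ t) (ht1 : t ≤ 1) :
    Near (fun r => (1 - t) * μ r + t * ν r) ((1 - t) * B + t * C) := by
  intro r
  have e : ∑ s ∈ Finset.range r, ((1 - t) * μ s + t * ν s) - ∑ s ∈ Finset.range r, prob s =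
      (1 - t) * (∑ s ∈ Finset.range r, μ s - ∑ s ∈ Finset.range r, prob s) +
      t * (∑ s ∈ Finset.range r, ν s - ∑ s ∈ Finset.range r, prob s) := by
    rw [Finset.sum_add_distrib, ← Finset.mul_sum, ← Finset.mul_sum]
    ring
  rw [e]
  refine (abs_add_le _ _).trans ?_
  rw [abs_mul, abs_mul, abs_of_nonneg ht, abs_of_nonneg (by linarith : (0 : ℝ) ≤ 1 - t)]
  have h1 := mul_le_mul_of_nonneg_left (h r) (by linarith : (0 : ℝ) ≤ 1 - t)
  have h2 := mul_le_mul_of_nonneg_left (h' r) ht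
  refine (add_le_add h1 h2).trans (le_of_eq ?_)
  ring

/-- **exponential convergence** -/
theorem chain_near (w : ℕ → ℝ) (hw : ∀ i, 0 ≤ w i ∧ w i ≤ 1) (k : ℕ) : ∀ {μ ν : ℕ → ℝ} {B : ℝ},
    Near μ B → Near ν B →
      Near (chain w k μ ν) (B * ∏ i ∈ Finset.range k, (1 - w (i + 1) / 2)) := by
  induction k with
  | zero =>
    intro μ ν B h h'
    have := h.mix h' (hw 0).1 (hw 0).2
    have e : (1 - w 0) * B + w 0 * B = B * ∏ i ∈ Finset.range 0, (1 - w (i + 1) / 2) := by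
      rw [Finset.prod_range_zero]
      ring
    rw [e] at this
    exact this
  | succ k ih =>
    intro μ ν B h h'
    have hB := h.nonneg
    have h1 := ih h (h.step.mono (by linarith))
    have h2 := ih h.step h'.step
    have := h1.mix h2 (hw (k + 1)).1 (hw (k + 1)).2
    have e : (1 - w (k + 1)) * (B * ∏ i ∈ Finset.range k, (1 - w (i + 1) / 2)) +
        w (k + 1) * (B / 2 * ∏ i ∈ Finset.range k, (1 - w (i + 1) / 2)) =
        B * ∏ i ∈ Finset.range (k + 1), (1 - w (i + 1) / 2) := by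
      rw [Finset.prod_range_succ]
      ring
    rw [e] at this
    exact this

theorem tail_le (m K : ℕ) : ∑ s ∈ Finset.range (m + 2 + K), ee s ≤
    ∑ s ∈ Finset.range (m + 2), ee s + (ee (m + 1) - ee (m + 1 + K)) := by
  induction K with
  | zero => simp
  | succ K ih =>
    rw [← add_assoc, Finset.sum_range_succ]
    have h1 := ee_third (m + K)
    have h2 := ee_pos (m + K + 1)
    have e1 : m + 2 + K = m + K + 2 := by ring
    have e2 : m + 1 + K = m + K + 1 := by ring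
    have e3 : m + 1 + (K + 1) = m + K + 2 := by ring
    rw [e1] at ih ⊢
    rw [e2] at ih
    rw [e3]
    linarith

theorem prob_tail (r : ℕ) : 1 - ∑ s ∈ Finset.range (r + 1), prob s ≤ ee r := by
  rcases r with _ | m
  · rw [Finset.sum_range_one, ee_zero]
    linarith [prob_pos 0]
  · have h1 : Tendsto (fun K : ℕ => ∑ s ∈ Finset.range (m + 2 + K), prob s) atTop (𝓝 1) := by
      have := prob_hasSum.tendsto_sum_nat
      exact this.comp (tendsto_add_atTop_nat (m + 2) |>.congr fun K => by rw [add_comm])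
    have h2 : ∀ K : ℕ, ∑ s ∈ Finset.range (m + 2 + K), prob s ≤
        ∑ s ∈ Finset.range (m + 2), prob s + ee (m + 1) := by
      intro K
      have h3 := tail_le m K
      have h4 := ee_pos (m + 1 + K)
      have h5 : ∀ M, ∑ s ∈ Finset.range M, prob s = lim2 * ∑ s ∈ Finset.range M, ee s := fun M => by
        rw [Finset.mul_sum]
        rfl
      rw [h5, h5]
      obtain ⟨-, h6, h7, -, -⟩ := lim2_facts
      have h8 := ee_pos (m + 1)
      have h9 : lim2 * ∑ s ∈ Finset.range (m + 2 + K), ee s ≤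
          lim2 * (∑ s ∈ Finset.range (m + 2), ee s + ee (m + 1)) :=
        mul_le_mul_of_nonneg_left (by linarith) h6.le
      have h10 : lim2 * ee (m + 1) ≤ ee (m + 1) := by nlinarith
      linarith
    have := le_of_tendsto' h1 h2
    linarith

theorem prob_cum (r : ℕ) : 0 ≤ 1 - ∑ s ∈ Finset.range r, prob s := by
  have := sum_le_hasSum (Finset.range r) (fun s _ => (prob_pos s).le) prob_hasSum
  linarith

/-- the first bound -/
theorem near_init {μ : ℕ → ℝ} {n : ℕ} (h0 : ∀ r, 0 ≤ μ r)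
    (h1 : ∀ m, n + 1 < m → ∑ s ∈ Finset.range m, μ s = 1) : Near μ (1 / ee n) := by
  intro r
  have hn := ee_pos n
  rcases r with _ | r
  · simp [ww]
  show _ ≤ 1 / ee n * ee r
  have h2 := prob_cum (r + 1)
  have hp : (0 : ℝ) ≤ ∑ s ∈ Finset.range (r + 1), prob s :=
    Finset.sum_nonneg fun s _ => (prob_pos s).le
  by_cases hr : r ≤ n
  · have h5 : (1 : ℝ) ≤ 1 / ee n * ee r := by
      rw [one_div, inv_mul_eq_div, le_div_iff₀ hn, one_mul]
      exact ee_mono hr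
    refine le_trans ?_ h5
    have h3 : 0 ≤ ∑ s ∈ Finset.range (r + 1), μ s := Finset.sum_nonneg fun s _ => h0 s
    have h4 : ∑ s ∈ Finset.range (r + 1), μ s ≤ 1 := by
      rw [← h1 (max (r + 1) (n + 2)) (by omega)]
      exact Finset.sum_le_sum_of_subset_of_nonneg
        (Finset.range_mono (le_max_left _ _)) fun s _ _ => h0 s
    rw [abs_le]
    constructor <;> linarith
  · rw [h1 (r + 1) (by omega), abs_of_nonneg h2]
    refine (prob_tail r).trans ?_
    have h6 : ee n ≤ 1 := by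
      have := ee_mono (Nat.zero_le n)
      rwa [ee_zero] at this
    have h7 : (1 : ℝ) ≤ 1 / ee n := by
      rw [le_div_iff₀ hn, one_mul]
      exact h6
    have := ee_pos r
    nlinarith

end Pool.Agent.U687.Q2
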