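import Pool.Agent.U687.Q2.Op

/-!
# The laws
-/

set_option autoImplicit false
set_option linter.unusedSectionVars false

open scoped Classical

namespace Pool.Agent.U687.Q2

open Finset Matrix Filter Topology

/-- the point mass -/
noncomputable def pt (r s : ℕ) : ℝ := if s = r then 1 else 0

/-- the forward operator -/
noncomputable def TT (μ : ℕ → ℝ) (r : ℕ) : ℝ :=
  (1 - (1 / 2) ^ (r + 1)) * μ (r + 1) + (1 / 2) ^ (r + 1) * μ r +
    (if r = 0 then 0 else (1 / 2) ^ r * μ (r - 1))

theorem UU_pt (r s : ℕ) : UU (pt r) s =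
    (1 - (1 / 2) ^ (r + 1)) * pt (r + 1) s + (1 / 2) ^ (r + 1) * pt r s +
      (if r = 0 then 0 else (1 / 2) ^ r * pt (r - 1) s) := by
  unfold UU pt
  rcases Nat.eq_zero_or_pos s with rfl | hs
  · rcases Nat.eq_zero_or_pos r with rfl | hr
    · simp
    · rw [if_neg (by omega : ¬ (0 = r)), if_neg (by omega : ¬ (0 = r + 1)),
        if_neg (by omega : ¬ (r = 0))]
      by_cases h : r = 1
      · subst h
        simp
      · rw [if_neg (by omega : ¬ (0 + 1 = r)), if_neg (by omega : ¬ (0 = r - 1))]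
        ring
  · by_cases h1 : s = r + 1
    · subst h1
      rw [if_pos (by omega : r + 1 - 1 = r), if_neg (by omega : ¬ (r + 1 = r)),
        if_neg (by omega : ¬ (r + 1 + 1 = r)), if_pos rfl]
      split_ifs with h2 h3
      · ring
      · omega
      · ring
    · by_cases h2 : s = r
      · subst h2
        rw [if_neg (by omega : ¬ (s - 1 = s)), if_pos rfl, if_neg (by omega : ¬ (s + 1 = s)),
          if_neg h1, if_neg (by omega : ¬ (s = 0)), if_neg (by omega : ¬ (s = s - 1))]
        ring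
      · by_cases h3 : s + 1 = r
        · subst h3
          rw [if_neg (by omega : ¬ (s - 1 = s + 1)), if_neg h2, if_pos rfl, if_neg h1,
            if_neg (by omega : ¬ (s + 1 = 0)), if_pos (by omega : s = s + 1 - 1)]
          ring
        · rw [if_neg (by omega : ¬ (s - 1 = r)), if_neg h2, if_neg h3, if_neg h1]
          split_ifs with h4 h5
          · ring
          · omega
          · ring

theorem ph_lin {n : ℕ} (A : Matrix (Fin n) (Fin n) (ZMod 2)) (c d : ℝ) (G H : ℕ → ℝ) :
    ph (fun r => c * G r + d * H r) A = c * ph G A + d * ph H A := by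
  unfold ph
  rw [Finset.sum_add_distrib, ← Finset.mul_sum, ← Finset.mul_sum, add_div, mul_div_assoc,
    mul_div_assoc]

theorem ps_lin {n : ℕ} (A : Matrix (Fin n) (Fin n) (ZMod 2)) (c d : ℝ) (G H : ℕ → ℝ) :
    ps (fun r => c * G r + d * H r) A = c * ps G A + d * ps H A := by
  unfold ps
  rw [← mul_div_assoc, ← mul_div_assoc, ← add_div]
  congr 1
  rw [Finset.mul_sum, Finset.mul_sum, ← Finset.sum_add_distrib]
  refine Finset.sum_congr rfl fun v _ => ?_
  rw [Finset.mul_sum, Finset.mul_sum, ← Finset.sum_add_distrib]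

/-- a linear functional -/
theorem lin_UU (a : (ℕ → ℝ) → ℝ)
    (ha : ∀ (c d : ℝ) (G H : ℕ → ℝ), a (fun r => c * G r + d * H r) = c * a G + d * a H) (r : ℕ) :
    a (UU (pt r)) = TT (fun s => a (pt s)) r := by
  have h1 : UU (pt r) = fun s => 1 * ((1 - (1 / 2) ^ (r + 1)) * pt (r + 1) s +
      (1 / 2) ^ (r + 1) * pt r s) + (if r = 0 then 0 else (1 / 2) ^ r) * pt (r - 1) s := by
    funext s
    rw [UU_pt]
    split_ifs <;> ring
  rw [h1, ha, ha]
  unfold TT
  split_ifs <;> ring

/-- the law of the corank with a random diagonal -/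
noncomputable def mu {n : ℕ} (A : Matrix (Fin n) (Fin n) (ZMod 2)) (r : ℕ) : ℝ := ph (pt r) A

/-- the law of the corank with a random vector on the diagonal and as a border -/
noncomputable def nu {n : ℕ} (A : Matrix (Fin n) (Fin n) (ZMod 2)) (r : ℕ) : ℝ := ps (pt r) A

theorem mu_UU {n : ℕ} (A : Matrix (Fin n) (Fin n) (ZMod 2)) (r : ℕ) :
    ph (UU (pt r)) A = TT (mu A) r :=
  lin_UU (fun G => ph G A) (fun c d G H => ph_lin A c d G H) r

theorem nu_UU {n : ℕ} (A : Matrix (Fin n) (Fin n) (ZMod 2)) (r : ℕ) :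
    ps (UU (pt r)) A = TT (nu A) r :=
  lin_UU (fun G => ps G A) (fun c d G H => ps_lin A c d G H) r

/-- the law after several primes -/
noncomputable def chain (w : ℕ → ℝ) : ℕ → (ℕ → ℝ) → (ℕ → ℝ) → ℕ → ℝ
  | 0, μ, ν, r => (1 - w 0) * μ r + w 0 * ν r
  | k + 1, μ, ν, r => (1 - w (k + 1)) * chain w k μ (TT μ) r +
      w (k + 1) * chain w k (TT μ) (TT ν) r

/-- the mean of `G` of the corank after several primes -/
noncomputable def PP (w : ℕ → ℝ) (G : ℕ → ℝ) : ℕ → (n : ℕ) → Matrix (Fin n) (Fin n) (ZMod 2) → ℝ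
  | 0, _, A => G (cor A)
  | k + 1, n, A => (1 - w k) * ((∑ v : Fin n → ZMod 2, PP w G k n (A + diagonal v)) / 2 ^ n) +
      w k * ((∑ v : Fin n → ZMod 2, ∑ d : ZMod 2, PP w G k (n + 1) (bord (A + diagonal v) d v)) /
        2 ^ (n + 1))

theorem TT_avg {ι : Type} [Fintype ι] (N : ℝ) (μ : ι → ℕ → ℝ) (r : ℕ) :
    (∑ i, TT (μ i) r) / N = TT (fun s => (∑ i, μ i s) / N) r := by
  unfold TT
  rw [Finset.sum_add_distrib, Finset.sum_add_distrib, ← Finset.mul_sum, ← Finset.mul_sum]
  split_ifs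
  · rw [Finset.sum_const_zero]
    ring
  · rw [← Finset.mul_sum]
    ring

theorem chain_avg (w : ℕ → ℝ) (k : ℕ) : ∀ {ι : Type} [Fintype ι] (N : ℝ) (μ ν : ι → ℕ → ℝ) (r : ℕ),
    (∑ i, chain w k (μ i) (ν i) r) / N =
      chain w k (fun s => (∑ i, μ i s) / N) (fun s => (∑ i, ν i s) / N) r := by
  induction k with
  | zero =>
    intro ι _ N μ ν r
    unfold chain
    rw [Finset.sum_add_distrib, ← Finset.mul_sum, ← Finset.mul_sum]
    ring
  | succ k ih =>
    intro ι _ N μ ν r
    have h1 : ∀ ρ : ι → ℕ → ℝ, (fun s => (∑ i, TT (ρ i) s) / N) =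
        TT (fun s => (∑ i, ρ i s) / N) := fun ρ => funext fun s => TT_avg N ρ s
    have e1 := ih N μ (fun i => TT (μ i)) r
    have e2 := ih N (fun i => TT (μ i)) (fun i => TT (ν i)) r
    rw [h1 μ] at e1
    rw [h1 μ, h1 ν] at e2
    show (∑ i, ((1 - w (k + 1)) * chain w k (μ i) (TT (μ i)) r +
      w (k + 1) * chain w k (TT (μ i)) (TT (ν i)) r)) / N =
      (1 - w (k + 1)) * chain w k (fun s => (∑ i, μ i s) / N) (TT fun s => (∑ i, μ i s) / N) r +
      w (k + 1) * chain w k (TT fun s => (∑ i, μ i s) / N) (TT fun s => (∑ i, ν i s) / N) r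
    rw [Finset.sum_add_distrib, ← Finset.mul_sum, ← Finset.mul_sum, add_div, mul_div_assoc,
      mul_div_assoc, e1, e2]

/-- **the law after several primes** -/
theorem PP_eq (w : ℕ → ℝ) (r : ℕ) (k : ℕ) : ∀ (n : ℕ) {A : Matrix (Fin n) (Fin n) (ZMod 2)},
    A.IsSymm → PP w (pt r) (k + 1) n A = chain w k (mu A) (nu A) r := by
  induction k with
  | zero =>
    intro n A _
    rfl
  | succ k ih =>
    intro n A hA
    have h1 : (∑ v : Fin n → ZMod 2, PP w (pt r) (k + 1) n (A + diagonal v)) / 2 ^ n =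
        chain w k (mu A) (TT (mu A)) r := by
      rw [Finset.sum_congr rfl fun v _ => ih n (diag_symm hA v), chain_avg]
      congr 1
      · funext s
        exact I_ph A (pt s)
      · funext s
        rw [← mu_UU A s]
        exact I_ps hA (pt s)
    have h2 : (∑ v : Fin n → ZMod 2, ∑ d : ZMod 2,
        PP w (pt r) (k + 1) (n + 1) (bord (A + diagonal v) d v)) / 2 ^ (n + 1) =
        chain w k (TT (mu A)) (TT (nu A)) r := by
      have h3 : ∀ (v : Fin n → ZMod 2) (d : ZMod 2),
          PP w (pt r) (k + 1) (n + 1) (bord (A + diagonal v) d v) =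
          chain w k (mu (bord (A + diagonal v) d v)) (nu (bord (A + diagonal v) d v)) r :=
        fun v d => ih (n + 1) (bord_symm (diag_symm hA v) d v)
      have h4 : ∑ v : Fin n → ZMod 2, ∑ d : ZMod 2,
          PP w (pt r) (k + 1) (n + 1) (bord (A + diagonal v) d v) =
          ∑ p : (Fin n → ZMod 2) × ZMod 2, chain w k (mu (bord (A + diagonal p.1) p.2 p.1))
            (nu (bord (A + diagonal p.1) p.2 p.1)) r := by
        rw [Fintype.sum_prod_type]
        exact Finset.sum_congr rfl fun v _ => Finset.sum_congr rfl fun d _ => h3 v d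
      rw [h4, chain_avg]
      congr 1
      · funext s
        rw [← mu_UU A s, ← S_ph hA, Fintype.sum_prod_type]
        rfl
      · funext s
        rw [← nu_UU A s, ← S_ps hA, Fintype.sum_prod_type]
        rfl
    show (1 - w (k + 1)) * ((∑ v : Fin n → ZMod 2, PP w (pt r) (k + 1) n (A + diagonal v)) / 2 ^ n) +
      w (k + 1) * ((∑ v : Fin n → ZMod 2, ∑ d : ZMod 2,
        PP w (pt r) (k + 1) (n + 1) (bord (A + diagonal v) d v)) / 2 ^ (n + 1)) = _
    rw [h1, h2]
    rfl

/-- the values `u` for the corank zero and `v` otherwise -/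
noncomputable def uw (u v : ℝ) (r : ℕ) : ℝ := if r = 0 then u else v

theorem PP_uw (w : ℕ → ℝ) (u v : ℝ) (k : ℕ) : ∀ (n : ℕ) (A : Matrix (Fin n) (Fin n) (ZMod 2)),
    PP w (uw u v) k n A = v + (u - v) * PP w (pt 0) k n A := by
  induction k with
  | zero =>
    intro n A
    show uw u v (cor A) = v + (u - v) * pt 0 (cor A)
    unfold uw pt
    split_ifs <;> ring
  | succ k ih =>
    intro n A
    have h1 : (∑ y : Fin n → ZMod 2, PP w (uw u v) k n (A + diagonal y)) / 2 ^ n =
        v + (u - v) * ((∑ y : Fin n → ZMod 2, PP w (pt 0) k n (A + diagonal y)) / 2 ^ n) := by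
      rw [Finset.sum_congr rfl fun y _ => ih n (A + diagonal y), Finset.sum_add_distrib,
        sum_const_vec, ← Finset.mul_sum]
      field_simp
    have h2 : (∑ y : Fin n → ZMod 2, ∑ d : ZMod 2,
        PP w (uw u v) k (n + 1) (bord (A + diagonal y) d y)) / 2 ^ (n + 1) =
        v + (u - v) * ((∑ y : Fin n → ZMod 2, ∑ d : ZMod 2,
          PP w (pt 0) k (n + 1) (bord (A + diagonal y) d y)) / 2 ^ (n + 1)) := by
      have h3 : ∀ y : Fin n → ZMod 2, ∑ d : ZMod 2,
          PP w (uw u v) k (n + 1) (bord (A + diagonal y) d y) =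
          2 * v + (u - v) * ∑ d : ZMod 2, PP w (pt 0) k (n + 1) (bord (A + diagonal y) d y) := by
        intro y
        rw [Finset.sum_congr rfl fun d _ => ih (n + 1) (bord (A + diagonal y) d y),
          Finset.sum_add_distrib, sum_const_two, ← Finset.mul_sum]
      rw [Finset.sum_congr rfl fun y _ => h3 y, Finset.sum_add_distrib,
        sum_const_vec, ← Finset.mul_sum, pow_succ]
      field_simp
    show (1 - w k) * ((∑ y : Fin n → ZMod 2, PP w (uw u v) k n (A + diagonal y)) / 2 ^ n) +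
      w k * ((∑ y : Fin n → ZMod 2, ∑ d : ZMod 2,
        PP w (uw u v) k (n + 1) (bord (A + diagonal y) d y)) / 2 ^ (n + 1)) =
      v + (u - v) * ((1 - w k) * ((∑ y : Fin n → ZMod 2, PP w (pt 0) k n (A + diagonal y)) / 2 ^ n) +
      w k * ((∑ y : Fin n → ZMod 2, ∑ d : ZMod 2,
        PP w (pt 0) k (n + 1) (bord (A + diagonal y) d y)) / 2 ^ (n + 1)))
    rw [h1, h2]
    ring

end Pool.Agent.U687.Q2
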