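import Pool.Agent.U687.Q2.Chain

/-!
# The means over the symbols of a new prime
-/

set_option autoImplicit false
set_option linter.unusedSectionVars false

open scoped Classical

namespace Pool.Agent.U687.Q2

open Finset Matrix Filter Topology

variable {n : ℕ}

/-- the mean over the diagonals -/
noncomputable def ph (G : ℕ → ℝ) {n : ℕ} (A : Matrix (Fin n) (Fin n) (ZMod 2)) : ℝ :=
  (∑ y : Fin n → ZMod 2, G (cor (A + diagonal y))) / 2 ^ n

/-- the mean over the vectors, added to the diagonal and as a border -/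
noncomputable def ps (G : ℕ → ℝ) {n : ℕ} (A : Matrix (Fin n) (Fin n) (ZMod 2)) : ℝ :=
  (∑ v : Fin n → ZMod 2, ∑ d : ZMod 2, G (cor (bord (A + diagonal v) d v))) / 2 ^ (n + 1)

/-- the mean over the diagonals with a fixed border -/
noncomputable def ch (G : ℕ → ℝ) {n : ℕ} (A : Matrix (Fin n) (Fin n) (ZMod 2)) (u : Fin n → ZMod 2) :
    ℝ :=
  (∑ v : Fin n → ZMod 2, ∑ d : ZMod 2, G (cor (bord (A + diagonal v) d u))) / 2 ^ (n + 1)

theorem sum_shift (F : (Fin n → ZMod 2) → ℝ) (v : Fin n → ZMod 2) :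
    ∑ y, F (v + y) = ∑ y, F y := Fintype.sum_equiv (Equiv.addLeft v) _ _ fun _ => rfl

theorem sum_shift1 (F : ZMod 2 → ℝ) (v : ZMod 2) : ∑ y, F (v + y) = ∑ y, F y :=
  Fintype.sum_equiv (Equiv.addLeft v) _ _ fun _ => rfl

theorem sum_shift1' (F : ZMod 2 → ℝ) (v : ZMod 2) : ∑ y, F (y + v) = ∑ y, F y :=
  Fintype.sum_equiv (Equiv.addRight v) _ _ fun _ => rfl

theorem ps_eq {A : Matrix (Fin n) (Fin n) (ZMod 2)} (hA : A.IsSymm) (G : ℕ → ℝ) :
    ps G A = ch G A (rs A) := by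
  unfold ps ch
  congr 1
  refine Finset.sum_congr rfl fun v _ => ?_
  rw [← sum_shift1' (fun d => G (cor (bord (A + diagonal v) d (rs A)))) (∑ i, v i + ∑ i, rs A i)]
  exact Finset.sum_congr rfl fun d _ => by rw [cor_congr (kc_same hA d v)]

theorem diag_diag (A : Matrix (Fin n) (Fin n) (ZMod 2)) (v y : Fin n → ZMod 2) :
    A + diagonal v + diagonal y = A + diagonal (v + y) := by
  rw [add_assoc, Matrix.diagonal_add]
  rfl

theorem card_vec : ∑ _v : Fin n → ZMod 2, (1 : ℝ) = 2 ^ n := by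
  rw [Finset.sum_const, Finset.card_univ, Fintype.card_fun, Fintype.card_fin, ZMod.card,
    nsmul_eq_mul, mul_one]
  push_cast
  rfl

theorem sum_const_vec (c : ℝ) : ∑ _v : Fin n → ZMod 2, c = 2 ^ n * c := by
  rw [← card_vec, Finset.sum_mul]
  exact Finset.sum_congr rfl fun _ _ => (one_mul c).symm

theorem sum_const_two (c : ℝ) : ∑ _d : ZMod 2, c = 2 * c := by
  rw [Finset.sum_const, Finset.card_univ, ZMod.card, nsmul_eq_mul]
  norm_num

/-- inert, then inert -/
theorem I_ph (A : Matrix (Fin n) (Fin n) (ZMod 2)) (G : ℕ → ℝ) :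
    (∑ v : Fin n → ZMod 2, ph G (A + diagonal v)) / 2 ^ n = ph G A := by
  have h : ∀ v : Fin n → ZMod 2, ph G (A + diagonal v) = ph G A := by
    intro v
    unfold ph
    congr 1
    rw [← sum_shift (fun y => G (cor (A + diagonal y))) v]
    exact Finset.sum_congr rfl fun y _ => by rw [diag_diag]
  rw [Finset.sum_congr rfl fun v _ => h v, sum_const_vec]
  field_simp

/-- split, then inert -/
theorem S_ph {A : Matrix (Fin n) (Fin n) (ZMod 2)} (hA : A.IsSymm) (G : ℕ → ℝ) :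
    (∑ v : Fin n → ZMod 2, ∑ d : ZMod 2, ph G (bord (A + diagonal v) d v)) / 2 ^ (n + 1) =
      ph (UU G) A := by
  have h : ∀ (v : Fin n → ZMod 2) (d : ZMod 2), ph G (bord (A + diagonal v) d v) =
      (∑ y : Fin n → ZMod 2, ∑ c : ZMod 2, G (cor (bord (A + diagonal y) c v))) / 2 ^ (n + 1) := by
    intro v d
    unfold ph
    congr 1
    have h1 := sum_cons (fun Y : Fin (n + 1) → ZMod 2 =>
      G (cor (bord (A + diagonal v) d v + diagonal Y)))
    beta_reduce at h1
    rw [h1, Finset.sum_comm]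
    rw [← sum_shift (fun y => ∑ c : ZMod 2, G (cor (bord (A + diagonal y) c v))) v]
    refine Finset.sum_congr rfl fun y _ => ?_
    rw [← sum_shift1 (fun c => G (cor (bord (A + diagonal (v + y)) c v))) d]
    exact Finset.sum_congr rfl fun c _ => by rw [bord_diag, diag_diag]
  have h2 : ∀ v : Fin n → ZMod 2, ∑ d : ZMod 2, ph G (bord (A + diagonal v) d v) =
      2 * ((∑ y : Fin n → ZMod 2, ∑ c : ZMod 2, G (cor (bord (A + diagonal y) c v))) /
        2 ^ (n + 1)) := by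
    intro v
    rw [Finset.sum_congr rfl fun d _ => h v d, sum_const_two]
  rw [Finset.sum_congr rfl fun v _ => h2 v, ← Finset.mul_sum, ← Finset.sum_div, Finset.sum_comm]
  unfold ph
  have h3 : ∀ y : Fin n → ZMod 2, UU G (cor (A + diagonal y)) =
      (∑ v : Fin n → ZMod 2, ∑ c : ZMod 2, G (cor (bord (A + diagonal y) c v))) / 2 ^ (n + 1) :=
    fun y => (step (diag_symm hA y) G).symm
  rw [Finset.sum_congr rfl fun y _ => h3 y, ← Finset.sum_div, pow_succ]
  field_simp

/-- inert, then split -/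
theorem I_ps {A : Matrix (Fin n) (Fin n) (ZMod 2)} (hA : A.IsSymm) (G : ℕ → ℝ) :
    (∑ v : Fin n → ZMod 2, ps G (A + diagonal v)) / 2 ^ n = ph (UU G) A := by
  have h : ∀ v : Fin n → ZMod 2, ps G (A + diagonal v) =
      (∑ y : Fin n → ZMod 2, ∑ d : ZMod 2, G (cor (bord (A + diagonal y) d (rs A + v)))) /
        2 ^ (n + 1) := by
    intro v
    rw [ps_eq (diag_symm hA v), rs_diag]
    unfold ch
    congr 1
    rw [← sum_shift (fun y => ∑ d : ZMod 2, G (cor (bord (A + diagonal y) d (rs A + v)))) v]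
    exact Finset.sum_congr rfl fun y _ => by rw [diag_diag]
  rw [Finset.sum_congr rfl fun v _ => h v]
  have h4 := sum_shift (fun v => (∑ y : Fin n → ZMod 2, ∑ d : ZMod 2,
    G (cor (bord (A + diagonal y) d v))) / 2 ^ (n + 1)) (rs A)
  beta_reduce at h4
  rw [h4, ← Finset.sum_div, Finset.sum_comm]
  unfold ph
  have h3 : ∀ y : Fin n → ZMod 2, UU G (cor (A + diagonal y)) =
      (∑ v : Fin n → ZMod 2, ∑ c : ZMod 2, G (cor (bord (A + diagonal y) c v))) / 2 ^ (n + 1) :=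
    fun y => (step (diag_symm hA y) G).symm
  rw [Finset.sum_congr rfl fun y _ => h3 y, ← Finset.sum_div]

theorem rs_bord (A : Matrix (Fin n) (Fin n) (ZMod 2)) (v : Fin n → ZMod 2) (d : ZMod 2) :
    rs (bord (A + diagonal v) d v) = (Fin.cons (d + ∑ i, v i) (rs A) : Fin (n + 1) → ZMod 2) := by
  have h1 : (fun _ : Fin (n + 1) => (1 : ZMod 2)) =
      (Fin.cons 1 (fun _ => 1) : Fin (n + 1) → ZMod 2) := by
    funext i
    refine Fin.cases rfl (fun i => rfl) i
  unfold rs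
  rw [h1]
  funext i
  refine Fin.cases ?_ (fun i => ?_) i
  · rw [bord_zero]
    show d * 1 + v ⬝ᵥ (fun _ => 1) = d + ∑ i, v i
    rw [mul_one]
    congr 1
    unfold dotProduct
    exact Finset.sum_congr rfl fun i _ => mul_one _
  · rw [bord_succ]
    show v i * 1 + ((A + diagonal v) *ᵥ fun _ => 1) i = (A *ᵥ fun _ => 1) i
    have h2 : (A + diagonal v) *ᵥ (fun _ => (1 : ZMod 2)) = rs A + v := rs_diag A v
    rw [h2, mul_one, Pi.add_apply, add_comm, add_assoc, two_zero, add_zero]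
    rfl

/-- five commuting sums -/
theorem comm5 {α : Type} [Fintype α] (F : α → ZMod 2 → α → ZMod 2 → ZMod 2 → ℝ) :
    ∑ v : α, ∑ d : ZMod 2, ∑ y : α, ∑ c : ZMod 2, ∑ D : ZMod 2, F v d y c D =
      ∑ y : α, ∑ D : ZMod 2, ∑ v : α, ∑ d : ZMod 2, ∑ c : ZMod 2, F v d y c D := by
  have f1 : ∑ v : α, ∑ d : ZMod 2, ∑ y : α, ∑ c : ZMod 2, ∑ D : ZMod 2, F v d y c D =
      ∑ p : (α × ZMod 2) × (α × (ZMod 2 × ZMod 2)), F p.1.1 p.1.2 p.2.1 p.2.2.1 p.2.2.2 := by
    rw [Fintype.sum_prod_type, Fintype.sum_prod_type]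
    refine Finset.sum_congr rfl fun v _ => Finset.sum_congr rfl fun d _ => ?_
    rw [Fintype.sum_prod_type]
    refine Finset.sum_congr rfl fun y _ => ?_
    rw [Fintype.sum_prod_type]
  have f2 : ∑ y : α, ∑ D : ZMod 2, ∑ v : α, ∑ d : ZMod 2, ∑ c : ZMod 2, F v d y c D =
      ∑ p : (α × ZMod 2) × (α × (ZMod 2 × ZMod 2)), F p.2.1 p.2.2.1 p.1.1 p.2.2.2 p.1.2 := by
    rw [Fintype.sum_prod_type, Fintype.sum_prod_type]
    refine Finset.sum_congr rfl fun v _ => Finset.sum_congr rfl fun d _ => ?_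
    rw [Fintype.sum_prod_type]
    refine Finset.sum_congr rfl fun y _ => ?_
    rw [Fintype.sum_prod_type]
  rw [f1, f2]
  exact Fintype.sum_equiv
    { toFun := fun p => ((p.2.1, p.2.2.2), (p.1.1, (p.1.2, p.2.2.1)))
      invFun := fun p => ((p.2.1, p.2.2.1), (p.1.1, (p.2.2.2, p.1.2)))
      left_inv := fun p => rfl
      right_inv := fun p => rfl } _ _ fun p => rfl

/-- split, then split -/
theorem S_ps {A : Matrix (Fin n) (Fin n) (ZMod 2)} (hA : A.IsSymm) (G : ℕ → ℝ) :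
    (∑ v : Fin n → ZMod 2, ∑ d : ZMod 2, ps G (bord (A + diagonal v) d v)) / 2 ^ (n + 1) =
      ps (UU G) A := by
  -- the mean for one `v` and `d`
  have h : ∀ (v : Fin n → ZMod 2) (d : ZMod 2), ps G (bord (A + diagonal v) d v) =
      (∑ y : Fin n → ZMod 2, ∑ c : ZMod 2, ∑ D : ZMod 2,
        G (cor (bord (bord (A + diagonal y) D (rs A)) c
          (Fin.cons (d + ∑ i, v i) v : Fin (n + 1) → ZMod 2)))) / 2 ^ (n + 1 + 1) := by
    intro v d
    rw [ps_eq (bord_symm (diag_symm hA v) d v), rs_bord]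
    unfold ch
    congr 1
    have h1 := sum_cons (fun Y : Fin (n + 1) → ZMod 2 => ∑ D : ZMod 2,
      G (cor (bord (bord (A + diagonal v) d v + diagonal Y) D
        (Fin.cons (d + ∑ i, v i) (rs A) : Fin (n + 1) → ZMod 2))))
    beta_reduce at h1
    rw [h1, Finset.sum_comm]
    rw [← sum_shift (fun y => ∑ c : ZMod 2, ∑ D : ZMod 2,
        G (cor (bord (bord (A + diagonal y) D (rs A)) c
          (Fin.cons (d + ∑ i, v i) v : Fin (n + 1) → ZMod 2)))) v]
    refine Finset.sum_congr rfl fun y _ => ?_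
    rw [← sum_shift1 (fun c => ∑ D : ZMod 2,
        G (cor (bord (bord (A + diagonal (v + y)) D (rs A)) c
          (Fin.cons (d + ∑ i, v i) v : Fin (n + 1) → ZMod 2)))) d]
    refine Finset.sum_congr rfl fun c _ => Finset.sum_congr rfl fun D _ => ?_
    rw [bord_diag, diag_diag, cor_congr (kc_swap _ _ _ _ _ _)]
  rw [ps_eq hA]
  unfold ch
  have h3 : ∀ (y : Fin n → ZMod 2) (D : ZMod 2), UU G (cor (bord (A + diagonal y) D (rs A))) =
      (∑ v : Fin n → ZMod 2, ∑ d : ZMod 2, ∑ c : ZMod 2,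
        G (cor (bord (bord (A + diagonal y) D (rs A)) c
          (Fin.cons (d + ∑ i, v i) v : Fin (n + 1) → ZMod 2)))) / 2 ^ (n + 1 + 1) := by
    intro y D
    rw [← step (bord_symm (diag_symm hA y) D (rs A)) G]
    congr 1
    have h5 := sum_cons (fun b : Fin (n + 1) → ZMod 2 => ∑ c : ZMod 2,
      G (cor (bord (bord (A + diagonal y) D (rs A)) c b)))
    beta_reduce at h5
    rw [h5, Finset.sum_comm]
    refine Finset.sum_congr rfl fun v _ => ?_
    rw [← sum_shift1' (fun d => ∑ c : ZMod 2,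
      G (cor (bord (bord (A + diagonal y) D (rs A)) c (Fin.cons d v : Fin (n + 1) → ZMod 2))))
        (∑ i, v i)]
  -- rearrangement
  have hL : ∑ v : Fin n → ZMod 2, ∑ d : ZMod 2, ps G (bord (A + diagonal v) d v) =
      (∑ v : Fin n → ZMod 2, ∑ d : ZMod 2, ∑ y : Fin n → ZMod 2, ∑ c : ZMod 2, ∑ D : ZMod 2,
        G (cor (bord (bord (A + diagonal y) D (rs A)) c
          (Fin.cons (d + ∑ i, v i) v : Fin (n + 1) → ZMod 2)))) / 2 ^ (n + 1 + 1) := by
    rw [Finset.sum_div]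
    refine Finset.sum_congr rfl fun v _ => ?_
    rw [Finset.sum_div]
    exact Finset.sum_congr rfl fun d _ => h v d
  have hR : ∑ y : Fin n → ZMod 2, ∑ D : ZMod 2, UU G (cor (bord (A + diagonal y) D (rs A))) =
      (∑ y : Fin n → ZMod 2, ∑ D : ZMod 2, ∑ v : Fin n → ZMod 2, ∑ d : ZMod 2, ∑ c : ZMod 2,
        G (cor (bord (bord (A + diagonal y) D (rs A)) c
          (Fin.cons (d + ∑ i, v i) v : Fin (n + 1) → ZMod 2)))) / 2 ^ (n + 1 + 1) := by
    rw [Finset.sum_div]
    refine Finset.sum_congr rfl fun y _ => ?_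
    rw [Finset.sum_div]
    exact Finset.sum_congr rfl fun D _ => h3 y D
  rw [hL, hR]
  have h6 := comm5 (fun (v : Fin n → ZMod 2) (d : ZMod 2) (y : Fin n → ZMod 2) (c D : ZMod 2) =>
    G (cor (bord (bord (A + diagonal y) D (rs A)) c
          (Fin.cons (d + ∑ i, v i) v : Fin (n + 1) → ZMod 2))))
  beta_reduce at h6
  rw [h6]

end Pool.Agent.U687.Q2
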